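import Mathlib

/-!
# MP_417c68_gt: compact standard quotients, groups with factors of real rank at most one

Definitions.  Text: `/team-store/TEXT_417c68.md`.
-/

noncomputable section

namespace Pool.Agent.MP_417c68_gt

open Matrix NormedSpace

variable {n : ℕ} {N : Fin n → ℕ}

/-- `∏ i, M_{N i}(ℝ)`; its group of units `(Alg N)ˣ` is `∏ i, GL(N i, ℝ)`. -/
abbrev Alg (N : Fin n → ℕ) : Type := ∀ i, Matrix (Fin (N i)) (Fin (N i)) ℝ

/-- the exponential `exp X`, as an element of the group `∏ i, GL(N i, ℝ)` -/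
def eu (X : Alg N) : (Alg N)ˣ where
  val := fun i => exp (X i)
  inv := fun i => exp (-X i)
  val_inv := by
    funext i
    show exp (X i) * exp (-X i) = 1
    rw [← Matrix.exp_add_of_commute (X i) (-X i) (Commute.refl (X i)).neg_right, add_neg_cancel,
      exp_zero]
  inv_val := by
    funext i
    show exp (-X i) * exp (X i) = 1
    rw [← Matrix.exp_add_of_commute (-X i) (X i) (Commute.refl (X i)).neg_left, neg_add_cancel,
      exp_zero]

/-- the Lie algebra of a subgroup: all `X` with `exp (t X) ∈ H` for every real `t` -/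
def lie (H : Subgroup (Alg N)ˣ) : Set (Alg N) := {X | ∀ t : ℝ, eu (t • X) ∈ H}

/-- the symmetric part `𝔭(H)` of the Lie algebra -/
def pp (H : Subgroup (Alg N)ˣ) : Set (Alg N) := {X | (∀ i, (X i)ᵀ = X i) ∧ X ∈ lie H}

/-- `H` is closed and has a Cartan decomposition with respect to the transpose:
every `h ∈ H` satisfies `hᵀ h = exp X` with a symmetric `X` in the Lie algebra of `H`
(equivalently `H = (H ∩ ∏ O(N i)) · exp 𝔭(H)`). -/
structure SelfAdj (H : Subgroup (Alg N)ˣ) : Prop where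
  closed : IsClosed (H : Set (Alg N)ˣ)
  polar : ∀ h ∈ H, ∃ X ∈ pp H, ∀ i, (h.1 i)ᵀ * h.1 i = exp (X i)

/-- the conjugate subgroup `a H a⁻¹` -/
def cj (a : (Alg N)ˣ) (H : Subgroup (Alg N)ˣ) : Subgroup (Alg N)ˣ where
  carrier := {g | a⁻¹ * g * a ∈ H}
  one_mem' := by
    show a⁻¹ * 1 * a ∈ H
    rw [mul_one, inv_mul_cancel]
    exact H.one_mem
  mul_mem' := fun {b c} hb hc => by
    show a⁻¹ * (b * c) * a ∈ H
    have h := H.mul_mem hb hc
    rwa [show a⁻¹ * b * a * (a⁻¹ * c * a) = a⁻¹ * (b * c) * a by group] at h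
  inv_mem' := fun {b} hb => by
    show a⁻¹ * b⁻¹ * a ∈ H
    have h := H.inv_mem hb
    rwa [show (a⁻¹ * b * a)⁻¹ = a⁻¹ * b⁻¹ * a by group] at h

lemma mem_cj {a g : (Alg N)ˣ} {H : Subgroup (Alg N)ˣ} : g ∈ cj a H ↔ a⁻¹ * g * a ∈ H := Iff.rfl

/-- `H` is a closed subgroup of `G`, reductive in `G`: some conjugate `a H a⁻¹`, `a ∈ G`, has a
Cartan decomposition with respect to the Cartan involution of the ambient group. -/
def Red (G H : Subgroup (Alg N)ˣ) : Prop := H ≤ G ∧ ∃ a ∈ G, SelfAdj (cj a H)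

/-- all factors have real rank at most one: `𝔭(G)` is the product of its block components, and
two elements of `𝔭(G)` which commute in the block `i` are proportional in the block `i`. -/
structure RankOne (G : Subgroup (Alg N)ˣ) : Prop where
  split : ∀ X ∈ pp G, ∀ i, (Pi.single i (X i) : Alg N) ∈ pp G
  rank : ∀ X ∈ pp G, ∀ Y ∈ pp G, ∀ i, X i * Y i = Y i * X i →
    ∃ c : ℝ, X i = c • Y i ∨ Y i = c • X i

/-- the action of `L` on `G/H` is proper: for every compact `C ⊆ G` the set of all `l ∈ L` with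
`l C H ∩ C H ≠ ∅` is relatively compact -/
def ProperAct (G H L : Subgroup (Alg N)ˣ) : Prop :=
  ∀ C : Set (Alg N)ˣ, IsCompact C → C ⊆ G → ∃ K : Set (Alg N)ˣ, IsCompact K ∧
    ∀ l ∈ L, ∀ h ∈ H, ∀ c ∈ C, ∀ c' ∈ C, l * c = c' * h → l ∈ K

/-- `L \ G / H` is compact: `G = L C H` for a compact subset `C` of `G` -/
def Cocompact (G H L : Subgroup (Alg N)ˣ) : Prop :=
  ∃ C : Set (Alg N)ˣ, IsCompact C ∧ C ⊆ G ∧ ∀ g ∈ G, ∃ l ∈ L, ∃ c ∈ C, ∃ h ∈ H, g = l * c * h

/-- `Γ` is a discrete torsion-free subgroup -/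
def DTF (Γ : Subgroup (Alg N)ˣ) : Prop :=
  DiscreteTopology Γ ∧ ∀ γ ∈ Γ, ∀ m : ℕ, 0 < m → γ ^ m = 1 → γ = 1

/-- `G/H` admits a compact standard quotient -/
def CSQ (G H : Subgroup (Alg N)ˣ) : Prop :=
  ∃ L Γ : Subgroup (Alg N)ˣ, Red G L ∧ ProperAct G H L ∧ Γ ≤ L ∧ DTF Γ ∧ Cocompact G H Γ

/-- the subgroup of all elements of `G` which are trivial in the blocks `i ∈ I` -/
def LI (G : Subgroup (Alg N)ˣ) (I : Finset (Fin n)) : Subgroup (Alg N)ˣ where
  carrier := {g | g ∈ G ∧ ∀ i ∈ I, g.1 i = 1}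
  one_mem' := ⟨G.one_mem, fun _ _ => rfl⟩
  mul_mem' := fun {a b} ha hb => ⟨G.mul_mem ha.1 hb.1, fun i hi => by
    show a.1 i * b.1 i = 1
    rw [ha.2 i hi, hb.2 i hi, one_mul]⟩
  inv_mem' := fun {a} ha => ⟨G.inv_mem ha.1, fun i hi => by
    have h1 : a.1 i * (a⁻¹).1 i = 1 := congrFun a.mul_inv i
    rwa [ha.2 i hi, one_mul] at h1⟩

/-- the criterion: for some set `I` of factors the projection of `H` to the blocks in `I` has
compact kernel, and its image is cocompact in the projection of `G` -/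
def Crit (G H : Subgroup (Alg N)ˣ) : Prop :=
  ∃ I : Finset (Fin n), IsCompact {h : (Alg N)ˣ | h ∈ H ∧ ∀ i ∈ I, h.1 i = 1} ∧
    ∃ C : Set (Alg N)ˣ, IsCompact C ∧ C ⊆ G ∧
      ∀ g ∈ G, ∃ h ∈ H, ∃ c ∈ C, ∀ i ∈ I, g.1 i = h.1 i * c.1 i

/-- the infinitesimal criterion: for some set `I` of factors the projection of `𝔭(a H a⁻¹)` to the
blocks in `I` is bijective onto the projection of `𝔭(G)` -/
def InfCrit (G H : Subgroup (Alg N)ˣ) : Prop :=
  ∃ a ∈ G, SelfAdj (cj a H) ∧ ∃ I : Finset (Fin n),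
    (∀ X ∈ pp (cj a H), (∀ i ∈ I, X i = 0) → X = 0) ∧
    ∀ Z ∈ pp G, ∃ X ∈ pp (cj a H), ∀ i ∈ I, X i = Z i

/-- squared Frobenius norm -/
def fr {m : ℕ} (A : Matrix (Fin m) (Fin m) ℝ) : ℝ := (Aᵀ * A).trace

/-- the compact sets `fr(g), fr(g⁻¹) ≤ R` -/
def KR (N : Fin n → ℕ) (R : ℝ) : Set (Alg N)ˣ := {g | ∀ i, fr (g.1 i) ≤ R ∧ fr ((g⁻¹).1 i) ≤ R}

/-- `k` is orthogonal in every block -/
def Orth (k : (Alg N)ˣ) : Prop := ∀ i, (k.1 i)ᵀ * k.1 i = 1

/-- conjugation of algebra elements -/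
def cA (k : (Alg N)ˣ) (X : Alg N) : Alg N := k.1 * X * (k⁻¹).1

/-- trace form -/
def ip (X Y : Alg N) : ℝ := ∑ i, (X i * Y i).trace

end Pool.Agent.MP_417c68_gt
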