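import Mathlib
import Pool.Agent.Lib.MP_417c68_gt.Defs

/-!
# MP_417c68_gt: the dimension count

Text: `/team-store/TEXT_417c68.md`.
-/

noncomputable section

namespace Pool.Agent.MP_417c68_gt

open Matrix NormedSpace

variable {n : ℕ} {N : Fin n → ℕ}

/-- truncation to the blocks in `I` -/
private def trc (I : Finset (Fin n)) : Alg N →ₗ[ℝ] Alg N where
  toFun z := fun i => if i ∈ I then z i else 0
  map_add' x y := by
    funext i
    by_cases h : i ∈ I <;> simp [h]
  map_smul' c x := by
    funext i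
    by_cases h : i ∈ I <;> simp [h]

private lemma trc_apply (I : Finset (Fin n)) (z : Alg N) (i : Fin n) :
    trc I z i = if i ∈ I then z i else 0 := rfl

private lemma trc_eq_sum (I : Finset (Fin n)) (z : Alg N) :
    trc I z = ∑ i ∈ I, (Pi.single i (z i) : Alg N) := by
  funext k
  rw [trc_apply, Finset.sum_apply]
  by_cases hk : k ∈ I
  · rw [if_pos hk, Finset.sum_eq_single k]
    · simp
    · intro b _ hb
      rw [Pi.single_eq_of_ne (Ne.symm hb)]
    · intro h
      exact absurd hk h
  · rw [if_neg hk]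
    symm
    apply Finset.sum_eq_zero
    intro b hb
    rw [Pi.single_eq_of_ne]
    rintro rfl
    exact hk hb

private lemma trc_mem {P : Submodule ℝ (Alg N)}
    (hsplit : ∀ z ∈ P, ∀ i, (Pi.single i (z i) : Alg N) ∈ P) (I : Finset (Fin n)) {z : Alg N}
    (hz : z ∈ P) : trc I z ∈ P := by
  rw [trc_eq_sum]
  exact Submodule.sum_mem _ fun i _ => hsplit z hz i

private lemma finrank_map_eq_of_inj (V : Submodule ℝ (Alg N)) (f : Alg N →ₗ[ℝ] Alg N)
    (h : ∀ x ∈ V, f x = 0 → x = 0) : Module.finrank ℝ (V.map f) = Module.finrank ℝ V := by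
  have hinj : Function.Injective (f.domRestrict V) := by
    rw [← LinearMap.ker_eq_bot, LinearMap.ker_eq_bot']
    intro x hx
    have := h x.1 x.2 (by simpa using hx)
    exact Subtype.ext this
  have h1 : LinearMap.range (f.domRestrict V) = V.map f := by
    rw [LinearMap.range_domRestrict]
  rw [← h1]
  exact LinearMap.finrank_range_of_inj hinj

theorem bij (V W P : Submodule ℝ (Alg N)) (hVP : V ≤ P) (hWP : W ≤ P)
    (hsum : ∀ z ∈ P, ∃ x ∈ V, ∃ y ∈ W, z = x + y)
    (hsplit : ∀ z ∈ P, ∀ i, (Pi.single i (z i) : Alg N) ∈ P) (I : Finset (Fin n))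
    (h1 : ∀ x ∈ V, (∀ i ∈ I, x i = 0) → x = 0) (h2 : ∀ y ∈ W, (∀ i ∉ I, y i = 0) → y = 0) :
    ∀ z ∈ P, ∃ x ∈ V, ∀ i ∈ I, x i = z i := by
  classical
  set PI : Submodule ℝ (Alg N) := P ⊓ LinearMap.ker (trc (Finset.univ \ I)) with hPI
  set PJ : Submodule ℝ (Alg N) := P ⊓ LinearMap.ker (trc I) with hPJ
  have hVI : V.map (trc I) ≤ PI := by
    rintro _ ⟨x, hx, rfl⟩
    refine ⟨trc_mem hsplit I (hVP hx), ?_⟩
    show trc (Finset.univ \ I) (trc I x) = 0
    funext i
    rw [trc_apply]
    by_cases hi : i ∈ I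
    · simp [hi]
    · rw [if_pos (by simp [hi]), trc_apply, if_neg hi]
      rfl
  have hWJ : W.map (trc (Finset.univ \ I)) ≤ PJ := by
    rintro _ ⟨x, hx, rfl⟩
    refine ⟨trc_mem hsplit _ (hWP hx), ?_⟩
    show trc I (trc (Finset.univ \ I) x) = 0
    funext i
    rw [trc_apply]
    by_cases hi : i ∈ I
    · rw [if_pos hi, trc_apply, if_neg (by simp [hi])]
      rfl
    · simp [hi]
  have hVr : Module.finrank ℝ (V.map (trc I)) = Module.finrank ℝ V := by
    apply finrank_map_eq_of_inj
    intro x hx hx0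
    apply h1 x hx
    intro i hi
    have := congrFun hx0 i
    rwa [trc_apply, if_pos hi] at this
  have hWr : Module.finrank ℝ (W.map (trc (Finset.univ \ I))) = Module.finrank ℝ W := by
    apply finrank_map_eq_of_inj
    intro x hx hx0
    apply h2 x hx
    intro i hi
    have := congrFun hx0 i
    rwa [trc_apply, if_pos (by simp [hi])] at this
  have hP : P ≤ V ⊔ W := by
    intro z hz
    obtain ⟨x, hx, y, hy, rfl⟩ := hsum z hz
    exact Submodule.add_mem_sup hx hy
  have hPVW : Module.finrank ℝ P ≤ Module.finrank ℝ V + Module.finrank ℝ W :=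
    (Submodule.finrank_mono hP).trans (Submodule.finrank_add_le_finrank_add_finrank V W)
  have hinf : PI ⊓ PJ = ⊥ := by
    rw [eq_bot_iff]
    rintro z ⟨⟨_, hz1⟩, ⟨_, hz2⟩⟩
    have hz1' : trc (Finset.univ \ I) z = 0 := hz1
    have hz2' : trc I z = 0 := hz2
    rw [Submodule.mem_bot]
    funext i
    by_cases hi : i ∈ I
    · have := congrFun hz2' i
      rwa [trc_apply, if_pos hi] at this
    · have := congrFun hz1' i
      rwa [trc_apply, if_pos (by simp [hi])] at this
  have hsup : PI ⊔ PJ ≤ P := sup_le inf_le_left inf_le_left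
  have hdim : Module.finrank ℝ PI + Module.finrank ℝ PJ ≤ Module.finrank ℝ P := by
    have h3 := Submodule.finrank_sup_add_finrank_inf_eq PI PJ
    rw [hinf, finrank_bot, add_zero] at h3
    rw [← h3]
    exact Submodule.finrank_mono hsup
  have hWle : Module.finrank ℝ W ≤ Module.finrank ℝ PJ := by
    rw [← hWr]
    exact Submodule.finrank_mono hWJ
  have hle : Module.finrank ℝ PI ≤ Module.finrank ℝ (V.map (trc I)) := by
    rw [hVr]
    omega
  have heq : V.map (trc I) = PI := Submodule.eq_of_le_of_finrank_le hVI hle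
  intro z hz
  have hzI : trc I z ∈ PI := by
    refine ⟨trc_mem hsplit I hz, ?_⟩
    show trc (Finset.univ \ I) (trc I z) = 0
    funext i
    rw [trc_apply]
    by_cases hi : i ∈ I
    · simp [hi]
    · rw [if_pos (by simp [hi]), trc_apply, if_neg hi]
      rfl
  rw [← heq] at hzI
  obtain ⟨x, hx, hxz⟩ := hzI
  refine ⟨x, hx, fun i hi => ?_⟩
  have := congrFun hxz i
  rwa [trc_apply, trc_apply, if_pos hi, if_pos hi] at this

end Pool.Agent.MP_417c68_gt
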