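import Mathlib
import Pool.Agent.Lib.MP_417c68_gt.Defs

/-!
# MP_417c68_gt: compact sets of the ambient group

Text: `/team-store/TEXT_417c68.md`.
-/

noncomputable section

namespace Pool.Agent.MP_417c68_gt

open Matrix NormedSpace

variable {n : ℕ} {N : Fin n → ℕ}

private theorem cpt_fr {m : ℕ} (A : Matrix (Fin m) (Fin m) ℝ) :
    fr A = ∑ j, ∑ k, A k j ^ 2 := by
  unfold fr
  rw [Matrix.trace]
  refine Finset.sum_congr rfl fun j _ => ?_
  rw [Matrix.diag_apply, Matrix.mul_apply]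
  refine Finset.sum_congr rfl fun k _ => ?_
  rw [Matrix.transpose_apply]
  ring

private theorem cpt_entry {m : ℕ} (A : Matrix (Fin m) (Fin m) ℝ) (j k : Fin m) :
    A j k ^ 2 ≤ fr A := by
  rw [cpt_fr]
  have h1 : A j k ^ 2 ≤ ∑ k', A k' k ^ 2 :=
    Finset.single_le_sum (f := fun k' => A k' k ^ 2) (fun _ _ => sq_nonneg _) (Finset.mem_univ j)
  exact h1.trans (Finset.single_le_sum (f := fun j' => ∑ k', A k' j' ^ 2)
    (fun _ _ => Finset.sum_nonneg fun _ _ => sq_nonneg _) (Finset.mem_univ k))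

private theorem cpt_fr_cont {m : ℕ} : Continuous (fr : Matrix (Fin m) (Fin m) ℝ → ℝ) := by
  have h : (fr : Matrix (Fin m) (Fin m) ℝ → ℝ) = fun A => ∑ j, ∑ k, A k j ^ 2 :=
    funext cpt_fr
  rw [h]
  fun_prop

private theorem cpt_S (N : Fin n → ℕ) (R : ℝ) : IsCompact {a : Alg N | ∀ i, fr (a i) ≤ R} := by
  have hbox : ∀ i, IsCompact {A : Matrix (Fin (N i)) (Fin (N i)) ℝ |
      ∀ j k, A j k ∈ Set.Icc (-Real.sqrt R) (Real.sqrt R)} := by
    intro i
    have h1 : IsCompact (Set.pi Set.univ fun _ : Fin (N i) =>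
        Set.pi Set.univ fun _ : Fin (N i) => Set.Icc (-Real.sqrt R) (Real.sqrt R)) :=
      isCompact_univ_pi fun _ => isCompact_univ_pi fun _ => isCompact_Icc
    have h2 : {A : Matrix (Fin (N i)) (Fin (N i)) ℝ |
        ∀ j k, A j k ∈ Set.Icc (-Real.sqrt R) (Real.sqrt R)} =
        (Set.pi Set.univ fun _ : Fin (N i) =>
        Set.pi Set.univ fun _ : Fin (N i) => Set.Icc (-Real.sqrt R) (Real.sqrt R)) := by
      apply Set.ext
      intro A
      constructor
      · intro h j _ k _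
        exact h j k
      · intro h j k
        exact h j (Set.mem_univ _) k (Set.mem_univ _)
    rw [h2]
    exact h1
  refine (isCompact_univ_pi hbox).of_isClosed_subset ?_ ?_
  · have : {a : Alg N | ∀ i, fr (a i) ≤ R} = ⋂ i, {a : Alg N | fr (a i) ≤ R} := by
      ext a
      rw [Set.mem_iInter]
      rfl
    rw [this]
    exact isClosed_iInter fun i =>
      isClosed_le (cpt_fr_cont.comp (continuous_apply i)) continuous_const
  · intro a ha i _ j k
    have h1 : a i j k ^ 2 ≤ R := (cpt_entry (a i) j k).trans (ha i)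
    have h2 := Real.abs_le_sqrt h1
    rw [abs_le] at h2
    exact h2

theorem isCompact_KR (N : Fin n → ℕ) (R : ℝ) : IsCompact (KR N R) := by
  have h1 := (cpt_S N R).prod ((cpt_S N R).image MulOpposite.continuous_op)
  have h2 := (Units.isClosedEmbedding_embedProduct (α := Alg N)).isCompact_preimage h1
  convert h2 using 1
  ext g
  constructor
  · intro h
    refine ⟨fun i => (h i).1, (g⁻¹).1, fun i => (h i).2, rfl⟩
  · rintro ⟨h3, b, hb, hb2⟩
    have h4 : b = (g⁻¹).1 := MulOpposite.op_injective hb2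
    intro i
    refine ⟨h3 i, ?_⟩
    rw [← h4]
    exact hb i

theorem exists_KR {C : Set (Alg N)ˣ} (hC : IsCompact C) : ∃ R : ℝ, C ⊆ KR N R := by
  have hc1 : ∀ i, Continuous fun g : (Alg N)ˣ => fr (g.1 i) := fun i =>
    cpt_fr_cont.comp ((continuous_apply i).comp Units.continuous_val)
  have hc2 : ∀ i, Continuous fun g : (Alg N)ˣ => fr ((g⁻¹).1 i) := fun i =>
    cpt_fr_cont.comp ((continuous_apply i).comp (Units.continuous_val.comp continuous_inv))
  have h1 : ∀ i, ∃ R : ℝ, ∀ g ∈ C, fr (g.1 i) ≤ R := by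
    intro i
    obtain ⟨R, hR⟩ := (hC.image (hc1 i)).bddAbove
    exact ⟨R, fun g hg => hR ⟨g, hg, rfl⟩⟩
  have h2 : ∀ i, ∃ R : ℝ, ∀ g ∈ C, fr ((g⁻¹).1 i) ≤ R := by
    intro i
    obtain ⟨R, hR⟩ := (hC.image (hc2 i)).bddAbove
    exact ⟨R, fun g hg => hR ⟨g, hg, rfl⟩⟩
  choose R1 hR1 using h1
  choose R2 hR2 using h2
  refine ⟨∑ i, (|R1 i| + |R2 i|), fun g hg i => ?_⟩
  have h3 : |R1 i| + |R2 i| ≤ ∑ i, (|R1 i| + |R2 i|) :=
    Finset.single_le_sum (f := fun i => |R1 i| + |R2 i|) (fun _ _ => by positivity)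
      (Finset.mem_univ i)
  have h4 := hR1 i g hg
  have h5 := hR2 i g hg
  have h6 := le_abs_self (R1 i)
  have h7 := le_abs_self (R2 i)
  have h8 := abs_nonneg (R1 i)
  have h9 := abs_nonneg (R2 i)
  exact ⟨by linarith, by linarith⟩

theorem isCompact_orth : IsCompact {k : (Alg N)ˣ | Orth k} := by
  refine (isCompact_KR N (∑ i, (N i : ℝ))).of_isClosed_subset ?_ ?_
  · have : {k : (Alg N)ˣ | Orth k} = ⋂ i, {k : (Alg N)ˣ | (k.1 i)ᵀ * k.1 i = 1} := by
      ext a
      rw [Set.mem_iInter]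
      rfl
    rw [this]
    refine isClosed_iInter fun i => isClosed_eq ?_ continuous_const
    have h : Continuous fun g : (Alg N)ˣ => g.1 i := (continuous_apply i).comp Units.continuous_val
    exact (h.matrix_transpose).matrix_mul h
  · intro k hk i
    have h1 : (k.1 i)ᵀ * k.1 i = 1 := hk i
    have h2 : k.1 i * (k.1 i)ᵀ = 1 := mul_eq_one_comm.1 h1
    have h3 : (k⁻¹).1 i = (k.1 i)ᵀ := by
      have h4 : k.1 i * (k⁻¹).1 i = 1 := congrFun k.mul_inv i
      calc (k⁻¹).1 i = (k.1 i)ᵀ * k.1 i * (k⁻¹).1 i := by rw [h1, one_mul]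
        _ = (k.1 i)ᵀ := by rw [Matrix.mul_assoc, h4, Matrix.mul_one]
    have h5 : ((N i : ℕ) : ℝ) ≤ ∑ i, (N i : ℝ) :=
      Finset.single_le_sum (f := fun i => (N i : ℝ)) (fun _ _ => by positivity)
        (Finset.mem_univ i)
    constructor
    · unfold fr
      rw [h1, Matrix.trace_one, Fintype.card_fin]
      exact h5
    · rw [h3]
      unfold fr
      rw [Matrix.transpose_transpose, h2, Matrix.trace_one, Fintype.card_fin]
      exact h5

theorem fr_nonneg {m : ℕ} (A : Matrix (Fin m) (Fin m) ℝ) : 0 ≤ fr A := by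
  rw [cpt_fr]
  exact Finset.sum_nonneg fun _ _ => Finset.sum_nonneg fun _ _ => sq_nonneg _

theorem fr_eq_zero {m : ℕ} {A : Matrix (Fin m) (Fin m) ℝ} (h : fr A = 0) : A = 0 := by
  ext j k
  have h1 := cpt_entry A j k
  rw [h] at h1
  have h2 : A j k ^ 2 = 0 := le_antisymm h1 (sq_nonneg _)
  rw [Matrix.zero_apply]
  exact pow_eq_zero_iff (two_ne_zero) |>.1 h2

end Pool.Agent.MP_417c68_gt
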