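import Mathlib
import Pool.Agent.Lib.MP_417c68_gt.Defs

/-!
# MP_417c68_gt: convexity of the Frobenius norm along two-sided orbits

Text: `/team-store/TEXT_417c68.md`.
-/

noncomputable section

namespace Pool.Agent.MP_417c68_gt

open Matrix NormedSpace

variable {n : ℕ} {N : Fin n → ℕ}

section aux

attribute [local instance] Matrix.linftyOpNormedRing Matrix.linftyOpNormedAlgebra

lemma der_two {m : ℕ} (a b F : Matrix (Fin m) (Fin m) ℝ) (t : ℝ) :
    HasDerivAt (fun s : ℝ => exp (s • a) * F * exp (s • b))
      (a * (exp (t • a) * F * exp (t • b)) + (exp (t • a) * F * exp (t • b)) * b) t := by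
  have h1 := hasDerivAt_exp_smul_const' a t
  have h2 := hasDerivAt_exp_smul_const b t
  have h3 : HasDerivAt (fun s : ℝ => exp (s • a) * F * exp (s • b))
      (a * exp (t • a) * F * exp (t • b) + exp (t • a) * F * (exp (t • b) * b)) t :=
    (h1.mul_const F).mul h2
  exact h3.congr_deriv (by simp only [mul_assoc])

lemma der_trace {m : ℕ} {G : ℝ → Matrix (Fin m) (Fin m) ℝ} {G' : Matrix (Fin m) (Fin m) ℝ} {t : ℝ}
    (h : HasDerivAt G G' t) : HasDerivAt (fun s => (G s).trace) G'.trace t := by
  have h1 := (LinearMap.toContinuousLinearMap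
    (Matrix.traceLinearMap (Fin m) ℝ ℝ)).hasFDerivAt (x := G t)
  exact h1.comp_hasDerivAt t h

lemma fr_nonneg' {m : ℕ} (A : Matrix (Fin m) (Fin m) ℝ) : 0 ≤ (Aᵀ * A).trace := by
  rw [Matrix.trace]
  refine Finset.sum_nonneg fun i _ => ?_
  rw [Matrix.diag_apply, Matrix.mul_apply]
  refine Finset.sum_nonneg fun j _ => ?_
  rw [Matrix.transpose_apply]
  exact mul_self_nonneg _

lemma conv_aux {m : ℕ} (x y E : Matrix (Fin m) (Fin m) ℝ) (hx : xᵀ = x) (hy : yᵀ = y) :
    (Eᵀ * E).trace + 2 * (Eᵀ * (y * E + E * x)).trace ≤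
      ((exp y * E * exp x)ᵀ * (exp y * E * exp x)).trace := by
  set M : ℝ → Matrix (Fin m) (Fin m) ℝ := fun s => exp (s • y) * E * exp (s • x) with hMd
  set P : ℝ → Matrix (Fin m) (Fin m) ℝ := fun s => exp (s • x) * Eᵀ * exp (s • y) with hPd
  have hP : ∀ s, P s = (M s)ᵀ := by
    intro s
    have e1 : (exp (s • x))ᵀ = exp (s • x) := by
      rw [← Matrix.exp_transpose, Matrix.transpose_smul, hx]
    have e2 : (exp (s • y))ᵀ = exp (s • y) := by
      rw [← Matrix.exp_transpose, Matrix.transpose_smul, hy]
    simp only [hMd, hPd, Matrix.transpose_mul, e1, e2, Matrix.mul_assoc]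
  have hM' : ∀ t, HasDerivAt M (y * M t + M t * x) t := fun t => der_two y x E t
  have hP' : ∀ t, HasDerivAt P (x * P t + P t * y) t := fun t => der_two x y Eᵀ t
  have hMM : ∀ t, HasDerivAt (fun s => y * M s + M s * x)
      (y * (y * M t + M t * x) + (y * M t + M t * x) * x) t := fun t =>
    ((hM' t).const_mul y).add ((hM' t).mul_const x)
  have hf : ∀ t, HasDerivAt (fun s => (P s * M s).trace)
      (2 * (P t * (y * M t + M t * x)).trace) t := by
    intro t
    have h1 : HasDerivAt (fun s => (P s * M s).trace)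
        ((x * P t + P t * y) * M t + P t * (y * M t + M t * x)).trace t :=
      der_trace ((hP' t).mul (hM' t))
    refine h1.congr_deriv ?_
    rw [add_mul, Matrix.trace_add, Matrix.trace_add, mul_add, Matrix.trace_add]
    have e1 : (x * P t * M t).trace = (P t * (M t * x)).trace := by
      rw [Matrix.mul_assoc, Matrix.trace_mul_comm, Matrix.mul_assoc]
    have e2 : (P t * y * M t).trace = (P t * (y * M t)).trace := by
      rw [Matrix.mul_assoc]
    rw [e1, e2]
    ring
  have hg : ∀ t, HasDerivAt (fun s => (P s * (y * M s + M s * x)).trace)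
      (2 * ((y * M t + M t * x)ᵀ * (y * M t + M t * x)).trace) t := by
    intro t
    have h1 : HasDerivAt (fun s => (P s * (y * M s + M s * x)).trace)
        ((x * P t + P t * y) * (y * M t + M t * x) +
          P t * (y * (y * M t + M t * x) + (y * M t + M t * x) * x)).trace t :=
      der_trace ((hP' t).mul (hMM t))
    refine h1.congr_deriv ?_
    have e0 : (y * M t + M t * x)ᵀ = P t * y + x * P t := by
      rw [Matrix.transpose_add, Matrix.transpose_mul y (M t), Matrix.transpose_mul (M t) x, hx, hy,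
        ← hP]
    rw [e0, Matrix.trace_add]
    generalize hW : y * M t + M t * x = W
    have e1 : (P t * (y * W + W * x)).trace = ((P t * y + x * P t) * W).trace := by
      rw [mul_add, add_mul, Matrix.trace_add, Matrix.trace_add, Matrix.mul_assoc (P t) y W,
        Matrix.mul_assoc x (P t) W, ← Matrix.mul_assoc (P t) W x,
        Matrix.trace_mul_comm (P t * W) x]
    have e2 : (x * P t + P t * y) = P t * y + x * P t := add_comm _ _
    rw [e1, e2]
    ring
  have hgm : Monotone (fun s => (P s * (y * M s + M s * x)).trace) := by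
    refine monotone_of_deriv_nonneg (fun t => (hg t).differentiableAt) fun t => ?_
    rw [(hg t).deriv]
    have := fr_nonneg' (y * M t + M t * x)
    linarith
  have hh : MonotoneOn (fun s => (P s * M s).trace - 2 * (P 0 * (y * M 0 + M 0 * x)).trace * s)
      (Set.Icc 0 1) := by
    have hd : ∀ t : ℝ, HasDerivAt
        (fun s => (P s * M s).trace - 2 * (P 0 * (y * M 0 + M 0 * x)).trace * s)
        (2 * (P t * (y * M t + M t * x)).trace - 2 * (P 0 * (y * M 0 + M 0 * x)).trace * 1) t :=
      fun t => (hf t).sub ((hasDerivAt_id t).const_mul _)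
    refine monotoneOn_of_deriv_nonneg (convex_Icc 0 1)
      (fun t _ => (hd t).continuousAt.continuousWithinAt)
      (fun t _ => (hd t).differentiableAt.differentiableWithinAt) fun t ht => ?_
    rw [(hd t).deriv]
    rw [interior_Icc] at ht
    have := hgm ht.1.le
    simp only at this
    linarith
  have hfin := hh (Set.left_mem_Icc.2 zero_le_one) (Set.right_mem_Icc.2 zero_le_one) zero_le_one
  simp only at hfin
  have hM0 : M 0 = E := by simp [hMd]
  have hP0 : P 0 = Eᵀ := by rw [hP, hM0]
  have hM1 : M 1 = exp y * E * exp x := by simp [hMd]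
  rw [hP 1, hM0, hP0, hM1] at hfin
  linarith

end aux

/-- `t ↦ fr (exp (t y) E exp (t x))` is convex for symmetric `x, y`. -/
theorem fr_conv {m : ℕ} (x y E : Matrix (Fin m) (Fin m) ℝ) (hx : xᵀ = x) (hy : yᵀ = y) :
    fr E + 2 * (Eᵀ * (y * E + E * x)).trace ≤ fr (exp y * E * exp x) :=
  conv_aux x y E hx hy

end Pool.Agent.MP_417c68_gt
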