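import Mathlib
import Pool.Agent.Lib.MP_417c68_gt.Defs

/-!
# MP_417c68_gt: the Lie algebra of a closed subgroup

Text: `/team-store/TEXT_417c68.md`.
-/

noncomputable section

namespace Pool.Agent.MP_417c68_gt

open Matrix NormedSpace Filter Topology

section general

variable {𝔸 : Type*} [NormedRing 𝔸] [NormedAlgebra ℝ 𝔸] [CompleteSpace 𝔸]

omit [CompleteSpace 𝔸] in
private theorem norm_exp_le' [NormOneClass 𝔸] (x : 𝔸) : ‖exp x‖ ≤ Real.exp ‖x‖ := by
  have h : Summable (fun n : ℕ => ‖((n.factorial : ℝ)⁻¹) • x ^ n‖) :=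
    norm_expSeries_summable' (𝕂 := ℝ) x
  have h2 : Summable (fun n : ℕ => ((n.factorial : ℝ)⁻¹) • ‖x‖ ^ n) :=
    expSeries_summable' (𝕂 := ℝ) (‖x‖ : ℝ)
  rw [exp_eq_tsum ℝ, Real.exp_eq_exp_ℝ, exp_eq_tsum ℝ]
  refine (norm_tsum_le_tsum_norm h).trans (Summable.tsum_le_tsum (fun n => ?_) h h2)
  rw [norm_smul, smul_eq_mul]
  refine mul_le_mul ?_ (norm_pow_le x n) (norm_nonneg _) (by positivity)
  rw [Real.norm_eq_abs, abs_of_nonneg (by positivity)]

omit [NormedAlgebra ℝ 𝔸] [CompleteSpace 𝔸] in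
private theorem pow_sub_pow_le [NormOneClass 𝔸] {A B : 𝔸} {K : ℝ} (hK : 1 ≤ K) (hA : ‖A‖ ≤ K)
    (hB : ‖B‖ ≤ K) (m : ℕ) : ‖A ^ m - B ^ m‖ ≤ m * K ^ m * ‖A - B‖ := by
  induction m with
  | zero => simp
  | succ m ih =>
    have e : A ^ (m + 1) - B ^ (m + 1) = A * (A ^ m - B ^ m) + (A - B) * B ^ m := by
      rw [pow_succ' A, pow_succ' B]
      noncomm_ring
    rw [e]
    have h0 : 0 ≤ ‖A - B‖ := norm_nonneg _
    have h1 : ‖A * (A ^ m - B ^ m)‖ ≤ K * (m * K ^ m * ‖A - B‖) :=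
      (norm_mul_le _ _).trans (mul_le_mul hA ih (norm_nonneg _) (by linarith))
    have h2 : ‖(A - B) * B ^ m‖ ≤ ‖A - B‖ * K ^ m := by
      refine (norm_mul_le _ _).trans (mul_le_mul_of_nonneg_left ?_ h0)
      exact (norm_pow_le B m).trans (pow_le_pow_left₀ (norm_nonneg _) hB m)
    have h3 : ‖A - B‖ * K ^ m ≤ K * K ^ m * ‖A - B‖ := by
      have : 0 ≤ ‖A - B‖ * K ^ m := by positivity
      nlinarith
    refine (norm_add_le _ _).trans ((add_le_add h1 h2).trans ?_)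
    push_cast
    rw [pow_succ']
    nlinarith

private theorem trotter_aux (X Y : 𝔸) :
    Tendsto (fun m : ℕ => (m : ℝ) * ‖exp ((m : ℝ)⁻¹ • X) * exp ((m : ℝ)⁻¹ • Y) -
      exp ((m : ℝ)⁻¹ • (X + Y))‖) atTop (𝓝 0) := by
  have hX : HasDerivAt (fun s : ℝ => exp (s • X)) X 0 := by
    have := hasDerivAt_exp_smul_const (𝕂 := ℝ) X 0
    simpa using this
  have hY : HasDerivAt (fun s : ℝ => exp (s • Y)) Y 0 := by
    have := hasDerivAt_exp_smul_const (𝕂 := ℝ) Y 0
    simpa using this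
  have hZ : HasDerivAt (fun s : ℝ => exp (s • (X + Y))) (X + Y) 0 := by
    have := hasDerivAt_exp_smul_const (𝕂 := ℝ) (X + Y) 0
    simpa using this
  have hF : HasDerivAt (fun s : ℝ => exp (s • X) * exp (s • Y) - exp (s • (X + Y))) 0 0 := by
    refine ((hX.mul hY).sub hZ).congr_deriv ?_
    simp
  rw [hasDerivAt_iff_tendsto_slope_zero] at hF
  have hm : Tendsto (fun m : ℕ => (m : ℝ)⁻¹) atTop (𝓝[≠] 0) := by
    rw [tendsto_nhdsWithin_iff]
    refine ⟨tendsto_inv_atTop_zero.comp tendsto_natCast_atTop_atTop, ?_⟩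
    filter_upwards [eventually_gt_atTop 0] with m hm
    have : (0 : ℝ) < m := by exact_mod_cast hm
    simp only [Set.mem_compl_iff, Set.mem_singleton_iff, inv_eq_zero]
    exact this.ne'
  have h2 := (hF.comp hm).norm
  simp only [Function.comp_def, zero_add, zero_smul, exp_zero, mul_one, sub_self, sub_zero,
    norm_zero, norm_smul, inv_inv] at h2
  refine h2.congr fun m => ?_
  rw [Real.norm_eq_abs, abs_of_nonneg (by positivity)]

private theorem trotter [NormOneClass 𝔸] (X Y : 𝔸) :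
    Tendsto (fun m : ℕ => (exp ((m : ℝ)⁻¹ • X) * exp ((m : ℝ)⁻¹ • Y)) ^ m) atTop
      (𝓝 (exp (X + Y))) := by
  have h0 := trotter_aux X Y
  have h1 : Tendsto (fun m : ℕ => (exp ((m : ℝ)⁻¹ • X) * exp ((m : ℝ)⁻¹ • Y)) ^ m -
      exp (X + Y)) atTop (𝓝 0) := by
    rw [tendsto_zero_iff_norm_tendsto_zero]
    have h2 := h0.const_mul (Real.exp (‖X‖ + ‖Y‖))
    rw [mul_zero] at h2
    refine squeeze_zero' (Eventually.of_forall fun m => norm_nonneg _) ?_ h2
    filter_upwards [eventually_gt_atTop 0] with m hm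
    have hm' : (0 : ℝ) < m := by exact_mod_cast hm
    obtain ⟨K, hK⟩ : ∃ K, K = Real.exp ((‖X‖ + ‖Y‖) / m) := ⟨_, rfl⟩
    have hK1 : 1 ≤ K := by
      rw [hK]
      exact Real.one_le_exp (by positivity)
    have hKm : K ^ m = Real.exp (‖X‖ + ‖Y‖) := by
      rw [hK, ← Real.exp_nat_mul]
      congr 1
      field_simp
    have nX : ‖exp ((m : ℝ)⁻¹ • X)‖ ≤ Real.exp (‖X‖ / m) := by
      refine (norm_exp_le' _).trans (le_of_eq ?_)
      rw [norm_smul, norm_inv, Real.norm_eq_abs, abs_of_pos hm', inv_mul_eq_div]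
    have nY : ‖exp ((m : ℝ)⁻¹ • Y)‖ ≤ Real.exp (‖Y‖ / m) := by
      refine (norm_exp_le' _).trans (le_of_eq ?_)
      rw [norm_smul, norm_inv, Real.norm_eq_abs, abs_of_pos hm', inv_mul_eq_div]
    have hA : ‖exp ((m : ℝ)⁻¹ • X) * exp ((m : ℝ)⁻¹ • Y)‖ ≤ K := by
      refine (norm_mul_le _ _).trans ((mul_le_mul nX nY (norm_nonneg _)
        (Real.exp_pos _).le).trans (le_of_eq ?_))
      rw [← Real.exp_add, hK, add_div]
    have hB : ‖exp ((m : ℝ)⁻¹ • (X + Y))‖ ≤ K := by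
      refine (norm_exp_le' _).trans ?_
      rw [hK]
      refine Real.exp_le_exp.2 ?_
      rw [norm_smul, norm_inv, Real.norm_eq_abs, abs_of_pos hm', inv_mul_eq_div]
      exact div_le_div_of_nonneg_right (norm_add_le X Y) hm'.le
    have hBm : exp ((m : ℝ)⁻¹ • (X + Y)) ^ m = exp (X + Y) := by
      let : NormedAlgebra ℚ 𝔸 := NormedAlgebra.restrictScalars ℚ ℝ 𝔸
      rw [← NormedSpace.exp_nsmul]
      congr 1
      rw [← Nat.cast_smul_eq_nsmul ℝ, smul_smul, mul_inv_cancel₀ hm'.ne', one_smul]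
    have h3 := pow_sub_pow_le hK1 hA hB m
    rw [hBm, hKm] at h3
    refine h3.trans (le_of_eq ?_)
    ring
  have h4 := h1.add_const (exp (X + Y))
  simpa using h4

end general

set_option backward.isDefEq.respectTransparency false in
private theorem trotter_mat {m : ℕ} (X Y : Matrix (Fin m) (Fin m) ℝ) :
    Tendsto (fun k : ℕ => (exp ((k : ℝ)⁻¹ • X) * exp ((k : ℝ)⁻¹ • Y)) ^ k) atTop
      (𝓝 (exp (X + Y))) := by
  rcases Nat.eq_zero_or_pos m with hm | hm
  · subst hm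
    refine tendsto_const_nhds.congr fun k => Subsingleton.elim _ _
  · have : Nonempty (Fin m) := ⟨⟨0, hm⟩⟩
    open scoped Norms.Operator in exact trotter X Y

set_option backward.isDefEq.respectTransparency false in
private theorem continuous_exp_mat {m : ℕ} :
    Continuous (fun X : Matrix (Fin m) (Fin m) ℝ => exp X) := by
  open scoped Norms.Operator in exact exp_continuous

set_option backward.isDefEq.respectTransparency false in
private theorem conj_deriv {m : ℕ} (X Y : Matrix (Fin m) (Fin m) ℝ) :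
    Tendsto (fun s : ℝ => s⁻¹ • (exp (s • X) * Y * exp (-(s • X)) - Y)) (𝓝[≠] 0)
      (𝓝 (X * Y - Y * X)) := by
  open scoped Norms.Operator in
  have hX : HasDerivAt (fun s : ℝ => exp (s • X)) X 0 := by
    have := hasDerivAt_exp_smul_const (𝕂 := ℝ) X 0
    simpa using this
  have hX2 : HasDerivAt (fun s : ℝ => exp (s • (-X))) (-X) 0 := by
    have := hasDerivAt_exp_smul_const (𝕂 := ℝ) (-X) 0
    simpa using this
  have hF : HasDerivAt (fun s : ℝ => exp (s • X) * Y * exp (s • (-X))) (X * Y - Y * X) 0 := by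
    refine ((hX.mul_const Y).mul hX2).congr_deriv ?_
    simp [sub_eq_add_neg]
  rw [hasDerivAt_iff_tendsto_slope_zero] at hF
  refine hF.congr fun s => ?_
  simp

/-! ### the group -/

variable {n : ℕ} {N : Fin n → ℕ}

variable {H : Subgroup (Alg N)ˣ}

private theorem units_tendsto {ι : Type*} {l : Filter ι} {u : ι → (Alg N)ˣ} {v : (Alg N)ˣ}
    (h1 : ∀ j, Tendsto (fun i => (u i).1 j) l (𝓝 (v.1 j)))
    (h2 : ∀ j, Tendsto (fun i => ((u i)⁻¹).1 j) l (𝓝 ((v⁻¹).1 j))) : Tendsto u l (𝓝 v) := by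
  rw [Units.isInducing_embedProduct.tendsto_nhds_iff]
  have e1 : Tendsto (fun i => (u i).1) l (𝓝 v.1) := tendsto_pi_nhds.2 h1
  have e2 : Tendsto (fun i => ((u i)⁻¹).1) l (𝓝 (v⁻¹).1) := tendsto_pi_nhds.2 h2
  exact e1.prodMk_nhds ((MulOpposite.continuous_op.tendsto _).comp e2)

theorem eu_zero : eu (0 : Alg N) = 1 := by
  refine Units.ext ?_
  funext i
  show exp (0 : Matrix (Fin (N i)) (Fin (N i)) ℝ) = 1
  exact exp_zero

theorem eu_add {X Y : Alg N} (h : X * Y = Y * X) : eu (X + Y) = eu X * eu Y := by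
  refine Units.ext ?_
  funext i
  show exp (X i + Y i) = exp (X i) * exp (Y i)
  exact Matrix.exp_add_of_commute _ _ (congrFun h i)

theorem eu_neg (X : Alg N) : eu (-X) = (eu X)⁻¹ := by
  refine Units.ext ?_
  rfl

theorem eu_cA (k : (Alg N)ˣ) (X : Alg N) : eu (cA k X) = k * eu X * k⁻¹ := by
  refine Units.ext ?_
  funext i
  show exp (k.1 i * X i * (k⁻¹).1 i) = k.1 i * exp (X i) * (k⁻¹).1 i
  have h1 : k.1 i * (k⁻¹).1 i = 1 := congrFun k.mul_inv i
  have h2 : (k⁻¹).1 i * k.1 i = 1 := congrFun k.inv_mul i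
  exact Matrix.exp_units_conj ⟨k.1 i, (k⁻¹).1 i, h1, h2⟩ (X i)

theorem continuous_eu : Continuous (eu : Alg N → (Alg N)ˣ) := by
  rw [continuous_iff_continuousAt]
  intro X
  refine units_tendsto (fun j => ?_) (fun j => ?_)
  · show Tendsto (fun Y : Alg N => exp (Y j)) (𝓝 X) (𝓝 (exp (X j)))
    exact (continuous_exp_mat.comp (continuous_apply j)).tendsto X
  · show Tendsto (fun Y : Alg N => exp (-Y j)) (𝓝 X) (𝓝 (exp (-X j)))
    exact (continuous_exp_mat.comp (continuous_apply j).neg).tendsto X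

theorem lie_smul (c : ℝ) {X : Alg N} (hX : X ∈ lie H) : c • X ∈ lie H := by
  intro t
  rw [smul_smul]
  exact hX _

private theorem trotter_units (X Y : Alg N) :
    Tendsto (fun k : ℕ => (eu ((k : ℝ)⁻¹ • X) * eu ((k : ℝ)⁻¹ • Y)) ^ k) atTop
      (𝓝 (eu (X + Y))) := by
  refine units_tendsto (fun j => ?_) (fun j => ?_)
  · exact trotter_mat (X j) (Y j)
  · have h := trotter_mat (-Y j) (-X j)
    have e : -Y j + -X j = -(X j + Y j) := by abel
    rw [e] at h
    show Tendsto (fun k : ℕ => (((eu ((k : ℝ)⁻¹ • X) * eu ((k : ℝ)⁻¹ • Y)) ^ k)⁻¹).1 j) atTop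
      (𝓝 (exp (-(X j + Y j))))
    refine h.congr fun k => ?_
    rw [← inv_pow, _root_.mul_inv_rev, ← eu_neg, ← eu_neg, ← smul_neg, ← smul_neg]
    rfl

/-- Trotter's formula: the Lie algebra of a closed subgroup is closed under addition. -/
theorem lie_add (hH : IsClosed (H : Set (Alg N)ˣ)) {X Y : Alg N} (hX : X ∈ lie H)
    (hY : Y ∈ lie H) : X + Y ∈ lie H := by
  intro t
  rw [smul_add]
  refine hH.mem_of_tendsto (trotter_units (t • X) (t • Y)) (Eventually.of_forall fun k => ?_)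
  refine H.pow_mem (H.mul_mem ?_ ?_) k
  · rw [smul_smul]; exact hX _
  · rw [smul_smul]; exact hY _

theorem lie_cA {h : (Alg N)ˣ} (hh : h ∈ H) {X : Alg N} (hX : X ∈ lie H) : cA h X ∈ lie H := by
  intro t
  have e : t • cA h X = cA h (t • X) := by
    unfold cA
    rw [mul_smul_comm, smul_mul_assoc]
  rw [e, eu_cA]
  exact H.mul_mem (H.mul_mem hh (hX t)) (H.inv_mem hh)

private theorem lie_closed (hH : IsClosed (H : Set (Alg N)ˣ)) : IsClosed (lie H) := by
  have e : lie H = ⋂ t : ℝ, (fun X : Alg N => eu (t • X)) ⁻¹' (H : Set (Alg N)ˣ) := by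
    ext X
    simp only [Set.mem_iInter, Set.mem_preimage, SetLike.mem_coe]
    exact Iff.rfl
  rw [e]
  refine isClosed_iInter fun t => hH.preimage ?_
  have h1 : Continuous (fun X : Alg N => t • X) := continuous_const_smul t
  exact continuous_eu.comp h1

/-- The Lie algebra of a closed subgroup is closed under brackets. -/
theorem lie_br (hH : IsClosed (H : Set (Alg N)ˣ)) {X Y : Alg N} (hX : X ∈ lie H)
    (hY : Y ∈ lie H) : X * Y - Y * X ∈ lie H := by
  have h1 : Tendsto (fun s : ℝ => s⁻¹ • (cA (eu (s • X)) Y - Y)) (𝓝[≠] 0)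
      (𝓝 (X * Y - Y * X)) := by
    rw [tendsto_pi_nhds]
    intro j
    exact conj_deriv (X j) (Y j)
  refine (lie_closed hH).mem_of_tendsto h1 (Eventually.of_forall fun s => ?_)
  refine lie_smul _ ?_
  rw [sub_eq_add_neg]
  refine lie_add hH (lie_cA (hX s) hY) ?_
  have := lie_smul (-1) hY
  rwa [neg_one_smul] at this

/-- `𝔭(H)` as a subspace -/
def pS (H : Subgroup (Alg N)ˣ) : Submodule ℝ (Alg N) := Submodule.span ℝ (pp H)

theorem mem_pS (hH : IsClosed (H : Set (Alg N)ˣ)) {X : Alg N} : X ∈ pS H ↔ X ∈ pp H := by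
  constructor
  · intro h
    refine Submodule.span_induction (p := fun X _ => X ∈ pp H) (fun x hx => hx) ?_ ?_ ?_ h
    · refine ⟨fun i => Matrix.transpose_zero, fun t => ?_⟩
      rw [smul_zero, eu_zero]
      exact H.one_mem
    · intro x y _ _ hx hy
      refine ⟨fun i => ?_, lie_add hH hx.2 hy.2⟩
      show (x i + y i)ᵀ = x i + y i
      rw [Matrix.transpose_add, hx.1, hy.1]
    · intro a x _ hx
      refine ⟨fun i => ?_, lie_smul a hx.2⟩
      show (a • x i)ᵀ = a • x i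
      rw [Matrix.transpose_smul, hx.1]
  · intro h
    exact Submodule.subset_span h

theorem pp_cA {k : (Alg N)ˣ} (hk : k ∈ H) (ho : Orth k) {X : Alg N} (hX : X ∈ pp H) :
    cA k X ∈ pp H := by
  refine ⟨fun i => ?_, lie_cA hk hX.2⟩
  have h1 : k.1 i * (k⁻¹).1 i = 1 := congrFun k.mul_inv i
  have h2 : (k⁻¹).1 i = (k.1 i)ᵀ := by
    calc (k⁻¹).1 i = ((k.1 i)ᵀ * k.1 i) * (k⁻¹).1 i := by rw [ho i, one_mul]
      _ = (k.1 i)ᵀ := by rw [mul_assoc, h1, mul_one]
  show (k.1 i * X i * (k⁻¹).1 i)ᵀ = k.1 i * X i * (k⁻¹).1 i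
  rw [h2, Matrix.transpose_mul, Matrix.transpose_mul, Matrix.transpose_transpose, hX.1,
    mul_assoc]

theorem pp_mono {G : Subgroup (Alg N)ˣ} (h : H ≤ G) : pp H ⊆ pp G :=
  fun _ hX => ⟨hX.1, fun t => h (hX.2 t)⟩

end Pool.Agent.MP_417c68_gt
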