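import Mathlib
import Pool.Agent.Lib.MP_417c68_gt.Defs

/-!
# MP_417c68_gt: symmetric matrices: consequences of the spectral theorem

Text: `/team-store/TEXT_417c68.md`.
-/

noncomputable section

namespace Pool.Agent.MP_417c68_gt

open Matrix NormedSpace

variable {n : ℕ} {N : Fin n → ℕ}

variable {m : ℕ} {A : Matrix (Fin m) (Fin m) ℝ}

private lemma spec_unit (hA : Aᵀ = A) : ∃ (u : (Matrix (Fin m) (Fin m) ℝ)ˣ) (l : Fin m → ℝ),
    A = u.1 * diagonal l * (u⁻¹).1 := by
  have hH : A.IsHermitian := by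
    rw [Matrix.IsHermitian, conjTranspose_eq_transpose_of_trivial, hA]
  refine ⟨Unitary.toUnits hH.eigenvectorUnitary, hH.eigenvalues, ?_⟩
  exact hH.spectral_theorem

/-- diagonalisation, in terms of traces -/
theorem spec (hA : Aᵀ = A) : ∃ l : Fin m → ℝ,
    (∀ s : ℝ, (exp (s • A)).trace = ∑ j, Real.exp (s * l j)) ∧
    (∀ s : ℝ, (A * exp (s • A)).trace = ∑ j, l j * Real.exp (s * l j)) ∧
    (A * A).trace = ∑ j, l j ^ 2 := by
  obtain ⟨u, l, h⟩ := spec_unit hA
  have he : ∀ s : ℝ, exp (s • A) = u.1 * diagonal (fun j => Real.exp (s * l j)) * (u⁻¹).1 := by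
    intro s
    have h1 : s • A = u.1 * diagonal (fun j => s * l j) * (u⁻¹).1 := by
      rw [h, ← smul_mul_assoc, ← mul_smul_comm, ← diagonal_smul]
      rfl
    rw [h1, Matrix.exp_units_conj, Matrix.exp_diagonal]
    congr 3
    funext j
    rw [Pi.coe_exp, Real.exp_eq_exp_ℝ]
  have hu : (u⁻¹).1 * u.1 = 1 := u.inv_mul
  refine ⟨l, fun s => ?_, fun s => ?_, ?_⟩
  · rw [he, Matrix.trace_units_conj, trace_diagonal]
  · rw [he]
    have h1 : A * (u.1 * diagonal (fun j => Real.exp (s * l j)) * (u⁻¹).1) =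
        u.1 * diagonal (fun j => l j * Real.exp (s * l j)) * (u⁻¹).1 := by
      conv_lhs => rw [h]
      calc u.1 * diagonal l * (u⁻¹).1 * (u.1 * diagonal (fun j => Real.exp (s * l j)) * (u⁻¹).1)
          = u.1 * diagonal l * ((u⁻¹).1 * u.1) * diagonal (fun j => Real.exp (s * l j)) *
              (u⁻¹).1 := by simp only [Matrix.mul_assoc]
        _ = u.1 * (diagonal l * diagonal (fun j => Real.exp (s * l j))) * (u⁻¹).1 := by
          rw [hu, Matrix.mul_one, Matrix.mul_assoc u.1]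
        _ = _ := by rw [diagonal_mul_diagonal]
    rw [h1, Matrix.trace_units_conj, trace_diagonal]
  · have h1 : A * A = u.1 * diagonal (fun j => l j ^ 2) * (u⁻¹).1 := by
      conv_lhs => rw [h]
      calc u.1 * diagonal l * (u⁻¹).1 * (u.1 * diagonal l * (u⁻¹).1)
          = u.1 * diagonal l * ((u⁻¹).1 * u.1) * diagonal l * (u⁻¹).1 := by
            simp only [Matrix.mul_assoc]
        _ = u.1 * (diagonal l * diagonal l) * (u⁻¹).1 := by
          rw [hu, Matrix.mul_one, Matrix.mul_assoc u.1]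
        _ = _ := by
          rw [diagonal_mul_diagonal]
          simp only [pow_two]
    rw [h1, Matrix.trace_units_conj, trace_diagonal]

theorem sq_nonneg' (hA : Aᵀ = A) : 0 ≤ (A * A).trace := by
  obtain ⟨l, -, -, h⟩ := spec hA
  rw [h]
  exact Finset.sum_nonneg fun j _ => sq_nonneg _

theorem zero_of_sq (hA : Aᵀ = A) (h : (A * A).trace = 0) : A = 0 := by
  have h1 : (A * A).trace = ∑ i, ∑ j, A i j ^ 2 := by
    simp only [Matrix.trace, Matrix.diag_apply, Matrix.mul_apply]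
    refine Finset.sum_congr rfl fun i _ => Finset.sum_congr rfl fun j _ => ?_
    have h2 : A j i = A i j := congrFun (congrFun hA i) j
    rw [h2, pow_two]
  rw [h1] at h
  ext i j
  have h2 := (Finset.sum_eq_zero_iff_of_nonneg
    (fun i _ => Finset.sum_nonneg fun j _ => sq_nonneg (A i j))).1 h i (Finset.mem_univ i)
  have h3 := (Finset.sum_eq_zero_iff_of_nonneg (fun j _ => sq_nonneg (A i j))).1 h2 j
    (Finset.mem_univ j)
  exact pow_eq_zero_iff (two_ne_zero) |>.1 h3

private lemma spec_cosh (x : ℝ) : x ^ 2 + 2 ≤ Real.exp x + Real.exp (-x) := by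
  have key : ∀ y : ℝ, 0 ≤ y → (2 * y) ^ 2 + 2 ≤ Real.exp (2 * y) + Real.exp (-(2 * y)) := by
    intro y hy
    have e1 := Real.self_le_sinh_iff.2 hy
    rw [Real.sinh_eq] at e1
    have e2 : Real.exp (2 * y) = Real.exp y * Real.exp y := by
      rw [← Real.exp_add]
      congr 1
      ring
    have e3 : Real.exp (-(2 * y)) = Real.exp (-y) * Real.exp (-y) := by
      rw [← Real.exp_add]
      congr 1
      ring
    have e4 : Real.exp y * Real.exp (-y) = 1 := by
      rw [← Real.exp_add, add_neg_cancel, Real.exp_zero]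
    rw [e2, e3]
    have e5 : 2 * y ≤ Real.exp y - Real.exp (-y) := by linarith
    have e6 : (2 * y) ^ 2 ≤ (Real.exp y - Real.exp (-y)) ^ 2 :=
      pow_le_pow_left₀ (by linarith) e5 2
    nlinarith
  rcases le_total 0 x with h | h
  · have := key (x / 2) (by linarith)
    rwa [mul_div_cancel₀ _ (two_ne_zero)] at this
  · have := key (-x / 2) (by linarith)
    rw [mul_div_cancel₀ _ (two_ne_zero), neg_neg] at this
    linarith [this, neg_sq x]

theorem zero_of_exp (hA : Aᵀ = A) (h : exp A = 1) : A = 0 := by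
  obtain ⟨l, h1, -, h3⟩ := spec hA
  have e1 := h1 1
  have e2 := h1 (-1)
  have e3 : exp (-A) = 1 := by rw [Matrix.exp_neg, h, inv_one]
  rw [one_smul, h] at e1
  rw [neg_one_smul, e3] at e2
  have e4 : ∑ j, (Real.exp (l j) + Real.exp (-(l j)) - 2) = 0 := by
    have e5 : ∑ j : Fin m, (2:ℝ) = 2 * (1 : Matrix (Fin m) (Fin m) ℝ).trace := by
      rw [Matrix.trace_one]
      simp [mul_comm]
    rw [Finset.sum_sub_distrib, Finset.sum_add_distrib, e5]
    simp only [one_mul, neg_mul] at e1 e2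
    rw [← e1, ← e2]
    ring
  have e6 : ∀ j, l j ^ 2 ≤ Real.exp (l j) + Real.exp (-(l j)) - 2 := fun j => by
    have := spec_cosh (l j)
    linarith
  have e7 : (A * A).trace = 0 := by
    refine le_antisymm ?_ (sq_nonneg' hA)
    rw [h3, ← e4]
    exact Finset.sum_le_sum fun j _ => e6 j
  exact zero_of_sq hA e7

theorem sq_le_exp (hA : Aᵀ = A) : (A * A).trace ≤ (exp A).trace + (exp (-A)).trace := by
  obtain ⟨l, h1, -, h3⟩ := spec hA
  have e1 := h1 1
  have e2 := h1 (-1)
  rw [one_smul] at e1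
  rw [neg_one_smul] at e2
  rw [e1, e2, h3, ← Finset.sum_add_distrib]
  refine Finset.sum_le_sum fun j _ => ?_
  have := spec_cosh (l j)
  rw [one_mul, neg_one_mul]
  linarith

theorem exp_unbounded (hA : Aᵀ = A) (h0 : A ≠ 0) (M : ℝ) : ∃ t : ℝ, M < (exp (t • A)).trace := by
  obtain ⟨l, h1, -, h3⟩ := spec hA
  obtain ⟨j, hj⟩ : ∃ j, l j ≠ 0 := by
    by_contra hcon
    push Not at hcon
    apply h0
    apply zero_of_sq hA
    rw [h3]
    exact Finset.sum_eq_zero fun j _ => by rw [hcon j, zero_pow two_ne_zero]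
  refine ⟨(|M| + 1) / l j, ?_⟩
  rw [h1]
  have e1 : Real.exp ((|M| + 1) / l j * l j) ≤ ∑ j', Real.exp ((|M| + 1) / l j * l j') :=
    Finset.single_le_sum (f := fun j' => Real.exp ((|M| + 1) / l j * l j'))
      (fun j' _ => (Real.exp_pos _).le) (Finset.mem_univ j)
  refine lt_of_lt_of_le ?_ e1
  rw [div_mul_cancel₀ _ hj]
  have e2 := Real.add_one_le_exp (|M| + 1)
  have e3 := le_abs_self M
  linarith

private lemma spec_diff (hA : Aᵀ = A) : ∃ l : Fin m → ℝ,
    (∀ s : ℝ, (exp ((2 * s) • A)).trace = ∑ j, Real.exp (2 * s * l j)) ∧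
    (∀ s : ℝ, (exp (-((2 * s) • A))).trace = ∑ j, Real.exp (-(2 * s * l j))) ∧
    (∀ s : ℝ, (A * (exp ((2 * s) • A) - exp (-((2 * s) • A)))).trace =
      ∑ j, l j * (Real.exp (2 * s * l j) - Real.exp (-(2 * s * l j)))) ∧
    (A * A).trace = ∑ j, l j ^ 2 := by
  obtain ⟨l, h1, h2, h3⟩ := spec hA
  refine ⟨l, fun s => h1 _, fun s => ?_, fun s => ?_, h3⟩
  · rw [← neg_smul, h1]
    refine Finset.sum_congr rfl fun j _ => ?_
    rw [neg_mul]
  · rw [Matrix.mul_sub, Matrix.trace_sub, ← neg_smul, h2, h2, ← Finset.sum_sub_distrib]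
    refine Finset.sum_congr rfl fun j _ => ?_
    rw [neg_mul, mul_sub]

theorem trZ_lower (hA : Aᵀ = A) {s : ℝ} (hs : 0 ≤ s) :
    4 * s * (A * A).trace ≤ (A * (exp ((2 * s) • A) - exp (-((2 * s) • A)))).trace := by
  obtain ⟨l, -, -, h1, h2⟩ := spec_diff hA
  rw [h1, h2, Finset.mul_sum]
  refine Finset.sum_le_sum fun j _ => ?_
  have key : ∀ x : ℝ, 0 ≤ x → 4 * s * x ^ 2 ≤
      x * (Real.exp (2 * s * x) - Real.exp (-(2 * s * x))) := by
    intro x hx
    have e1 := Real.self_le_sinh_iff.2 (show 0 ≤ 2 * s * x by positivity)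
    rw [Real.sinh_eq] at e1
    have e2 : 4 * s * x ≤ Real.exp (2 * s * x) - Real.exp (-(2 * s * x)) := by linarith
    have e3 := mul_le_mul_of_nonneg_left e2 hx
    calc 4 * s * x ^ 2 = x * (4 * s * x) := by ring
      _ ≤ _ := e3
  rcases le_total 0 (l j) with h | h
  · exact key _ h
  · have e1 := key (-(l j)) (by linarith)
    have e2 : 2 * s * -l j = -(2 * s * l j) := by ring
    rw [e2, neg_neg] at e1
    calc 4 * s * l j ^ 2 = 4 * s * (-(l j)) ^ 2 := by ring
      _ ≤ -l j * (Real.exp (-(2 * s * l j)) - Real.exp (2 * s * l j)) := e1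
      _ = _ := by ring

theorem trZ_upper (hA : Aᵀ = A) : ∃ R : ℝ, 0 < R ∧ ∀ s : ℝ,
    (A * (exp ((2 * s) • A) - exp (-((2 * s) • A)))).trace ≤
      R * ((exp ((2 * s) • A)).trace + (exp (-((2 * s) • A))).trace) := by
  obtain ⟨l, h1, h2, h3, -⟩ := spec_diff hA
  have hnn : 0 ≤ ∑ j, |l j| := Finset.sum_nonneg fun j _ => abs_nonneg _
  refine ⟨1 + ∑ j, |l j|, by linarith, fun s => ?_⟩
  rw [h1, h2, h3, ← Finset.sum_add_distrib, Finset.mul_sum]
  refine Finset.sum_le_sum fun j _ => ?_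
  have e1 : |l j| ≤ 1 + ∑ j, |l j| := by
    have := Finset.single_le_sum (f := fun j => |l j|) (fun j _ => abs_nonneg _) (Finset.mem_univ j)
    linarith
  have p1 := Real.exp_pos (2 * s * l j)
  have p2 := Real.exp_pos (-(2 * s * l j))
  have e2 : l j * (Real.exp (2 * s * l j) - Real.exp (-(2 * s * l j))) ≤
      |l j| * (Real.exp (2 * s * l j) + Real.exp (-(2 * s * l j))) := by
    have q1 := le_abs_self (l j)
    have q2 := neg_abs_le (l j)
    nlinarith
  exact e2.trans (mul_le_mul_of_nonneg_right e1 (by linarith))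

end Pool.Agent.MP_417c68_gt
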