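import Mathlib
import Pool.Agent.Lib.MP_417c68_gt.Lie
import Pool.Agent.Lib.MP_417c68_gt.Spec

/-!
# MP_417c68_gt: polar decompositions

Text: `/team-store/TEXT_417c68.md`.
-/

noncomputable section

namespace Pool.Agent.MP_417c68_gt

open Matrix NormedSpace

variable {n : ℕ} {N : Fin n → ℕ}

variable {H : Subgroup (Alg N)ˣ}

private theorem polar_smul (c : ℝ) {X : Alg N} (hX : X ∈ pp H) : c • X ∈ pp H :=
  ⟨fun i => by rw [Pi.smul_apply, Matrix.transpose_smul, hX.1 i], lie_smul c hX.2⟩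

private theorem polar_eu {X : Alg N} (hX : X ∈ pp H) : eu X ∈ H := by
  have h := hX.2 1
  rwa [one_smul] at h

private theorem polar_expT {m : ℕ} {A : Matrix (Fin m) (Fin m) ℝ} (hA : Aᵀ = A) :
    (exp A)ᵀ = exp A := by
  rw [← Matrix.exp_transpose, hA]

private theorem polar_three {m : ℕ} (A : Matrix (Fin m) (Fin m) ℝ) :
    exp (-((1 / 2 : ℝ) • A)) * exp A * exp (-((1 / 2 : ℝ) • A)) = 1 := by
  have c1 : Commute (-((1 / 2 : ℝ) • A)) A := ((Commute.refl A).smul_left _).neg_left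
  have c2 : Commute (-((1 / 2 : ℝ) • A) + A) (-((1 / 2 : ℝ) • A)) :=
    (c1.add_left (Commute.refl A)).symm.smul_left (1 / 2 : ℝ) |>.neg_left |>.symm
  rw [← Matrix.exp_add_of_commute _ _ c1, ← Matrix.exp_add_of_commute _ _ c2]
  have e : -((1 / 2 : ℝ) • A) + A + -((1 / 2 : ℝ) • A) = 0 := by
    module
  rw [e, exp_zero]

theorem polar_right (hH : SelfAdj H) {h : (Alg N)ˣ} (hh : h ∈ H) :
    ∃ X ∈ pp H, ∃ k ∈ H, Orth k ∧ h = k * eu X := by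
  obtain ⟨X, hX, hp⟩ := hH.polar h hh
  have hY := polar_smul (1 / 2 : ℝ) hX
  refine ⟨(1 / 2 : ℝ) • X, hY, h * (eu ((1 / 2 : ℝ) • X))⁻¹,
    H.mul_mem hh (H.inv_mem (polar_eu hY)), fun i => ?_, by group⟩
  show (h.1 i * exp (-(((1 / 2 : ℝ) • X) i)))ᵀ * (h.1 i * exp (-(((1 / 2 : ℝ) • X) i))) = 1
  have hs : (exp (-(((1 / 2 : ℝ) • X) i)))ᵀ = exp (-(((1 / 2 : ℝ) • X) i)) := by
    apply polar_expT
    rw [Matrix.transpose_neg, hY.1 i]
  rw [Matrix.transpose_mul, hs, Matrix.mul_assoc, ← Matrix.mul_assoc (h.1 i)ᵀ, hp i,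
    ← Matrix.mul_assoc]
  exact polar_three (X i)

theorem orth_right {k : (Alg N)ˣ} (h : Orth k) (i : Fin n) : k.1 i * (k.1 i)ᵀ = 1 :=
  mul_eq_one_comm.mp (h i)

private theorem polar_inv_eq {k : (Alg N)ˣ} (h : Orth k) (i : Fin n) :
    (k⁻¹).1 i = (k.1 i)ᵀ := by
  have h1 : (k⁻¹).1 i * k.1 i = 1 := congrFun k.inv_mul i
  calc (k⁻¹).1 i = (k⁻¹).1 i * (k.1 i * (k.1 i)ᵀ) := by rw [orth_right h i, Matrix.mul_one]
    _ = _ := by rw [← Matrix.mul_assoc, h1, Matrix.one_mul]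

theorem orth_inv {k : (Alg N)ˣ} (h : Orth k) : Orth k⁻¹ := fun i => by
  rw [polar_inv_eq h i, Matrix.transpose_transpose, orth_right h i]

theorem orth_mul {k k' : (Alg N)ˣ} (h : Orth k) (h' : Orth k') : Orth (k * k') := fun i => by
  show (k.1 i * k'.1 i)ᵀ * (k.1 i * k'.1 i) = 1
  rw [Matrix.transpose_mul, Matrix.mul_assoc, ← Matrix.mul_assoc (k.1 i)ᵀ, h i, Matrix.one_mul,
    h' i]

theorem polar_left (hH : SelfAdj H) {h : (Alg N)ˣ} (hh : h ∈ H) :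
    ∃ X ∈ pp H, ∃ k ∈ H, Orth k ∧ h = eu X * k := by
  obtain ⟨X, hX, k, hk, ho, he⟩ := polar_right hH (H.inv_mem hh)
  refine ⟨-X, ?_, k⁻¹, H.inv_mem hk, orth_inv ho, ?_⟩
  · have h1 := polar_smul (-1 : ℝ) hX
    rwa [neg_one_smul] at h1
  · rw [eu_neg, ← _root_.mul_inv_rev, ← he, inv_inv]

theorem fr_orth_left {m : ℕ} {k A : Matrix (Fin m) (Fin m) ℝ} (hk : kᵀ * k = 1) :
    fr (k * A) = fr A := by
  unfold fr
  rw [Matrix.transpose_mul, Matrix.mul_assoc, ← Matrix.mul_assoc kᵀ, hk, Matrix.one_mul]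

theorem fr_orth_right {m : ℕ} {k A : Matrix (Fin m) (Fin m) ℝ} (hk : k * kᵀ = 1) :
    fr (A * k) = fr A := by
  unfold fr
  rw [Matrix.transpose_mul, Matrix.mul_assoc, Matrix.trace_mul_comm, Matrix.mul_assoc,
    Matrix.mul_assoc, hk, Matrix.mul_one]

end Pool.Agent.MP_417c68_gt
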