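import Mathlib
import Pool.Agent.Lib.MP_417c68_gt.Lie
import Pool.Agent.Lib.MP_417c68_gt.Spec

/-!
# MP_417c68_gt: the Riesz representative in a factor of real rank one

Text: `/team-store/TEXT_417c68.md`.
-/

noncomputable section

namespace Pool.Agent.MP_417c68_gt

open Matrix NormedSpace

variable {n : ℕ} {N : Fin n → ℕ}

/-- on a space of symmetric matrices the trace form represents every functional -/
private lemma rep_exists {m : ℕ} (P : Submodule ℝ (Matrix (Fin m) (Fin m) ℝ))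
    (hP : ∀ X ∈ P, Xᵀ = X) (Z : Matrix (Fin m) (Fin m) ℝ) :
    ∃ z ∈ P, ∀ X ∈ P, (X * Z).trace = (X * z).trace := by
  let F : Matrix (Fin m) (Fin m) ℝ → Module.Dual ℝ P := fun Y =>
    (Matrix.traceLinearMap (Fin m) ℝ ℝ).comp ((LinearMap.mulRight ℝ Y).comp P.subtype)
  have hF : ∀ Y (X : P), F Y X = ((X : Matrix (Fin m) (Fin m) ℝ) * Y).trace := fun Y X => rfl
  let T : P →ₗ[ℝ] Module.Dual ℝ P :=
    { toFun := fun Y => F Y
      map_add' := fun A B => by
        ext X
        rw [LinearMap.add_apply, hF, hF, hF, Submodule.coe_add, mul_add, trace_add]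
      map_smul' := fun c A => by
        ext X
        rw [RingHom.id_apply, LinearMap.smul_apply, hF, hF, Submodule.coe_smul,
          Matrix.mul_smul, trace_smul] }
  have hT : ∀ (Y X : P), T Y X = ((X : Matrix (Fin m) (Fin m) ℝ) * Y).trace := fun Y X => rfl
  have hinj : Function.Injective T := by
    rw [← LinearMap.ker_eq_bot, LinearMap.ker_eq_bot']
    intro Y hY
    have h1 : T Y Y = 0 := by rw [hY]; rfl
    rw [hT] at h1
    exact Subtype.ext (zero_of_sq (hP _ Y.2) h1)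
  have hsurj : Function.Surjective T :=
    (LinearMap.injective_iff_surjective_of_finrank_eq_finrank
      (Subspace.dual_finrank_eq (K := ℝ) (V := P)).symm).1 hinj
  obtain ⟨z, hz⟩ := hsurj (F Z)
  refine ⟨z, z.2, fun X hX => ?_⟩
  have h2 := LinearMap.congr_fun hz ⟨X, hX⟩
  rw [hT, hF] at h2
  exact h2.symm

theorem riesz {G : Subgroup (Alg N)ˣ} (hG : SelfAdj G) (hR : RankOne G) {ν x : Alg N}
    (hν : ν ∈ pp G) (hx : x ∈ pp G) (i : Fin n) (Z : Matrix (Fin (N i)) (Fin (N i)) ℝ)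
    (hZ : Z * ν i = ν i * Z) :
    (x i * Z).trace * (ν i * ν i).trace = (x i * ν i).trace * (ν i * Z).trace := by
  by_cases h0 : ν i = 0
  · simp [h0]
  -- the Riesz representative
  obtain ⟨z0, hz0, hz1⟩ := rep_exists ((pS G).map (LinearMap.proj i)) (by
    rintro X ⟨Y, hY, rfl⟩
    exact ((mem_pS hG.closed).1 hY).1 i) Z
  obtain ⟨w0, hw0, rfl⟩ := hz0
  have hw0' : w0 ∈ pp G := (mem_pS hG.closed).1 hw0
  have hrep : ∀ y ∈ pp G, (y i * Z).trace = (y i * w0 i).trace := fun y hy =>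
    hz1 (y i) ⟨y, (mem_pS hG.closed).2 hy, rfl⟩
  clear hz1
  set z : Alg N := Pi.single i (w0 i) with hzdef
  set ν' : Alg N := Pi.single i (ν i) with hν'def
  have hz : z ∈ pp G := hR.split w0 hw0' i
  have hν' : ν' ∈ pp G := hR.split ν hν i
  have hzi : z i = w0 i := Pi.single_eq_same i _
  have hνi : ν' i = ν i := Pi.single_eq_same i _
  have hsz : ∀ j, (z j)ᵀ = z j := hz.1
  have hsν : ∀ j, (ν' j)ᵀ = ν' j := hν'.1
  have hκ : ν' * z - z * ν' ∈ lie G := lie_br hG.closed hν'.2 hz.2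
  set κ : Alg N := ν' * z - z * ν' with hκdef
  have hκj : ∀ j, κ j = ν' j * z j - z j * ν' j := fun j => rfl
  have hκs : ∀ j, (κ j)ᵀ = - κ j := fun j => by
    rw [hκj, transpose_sub, transpose_mul, transpose_mul, hsz, hsν, neg_sub]
  have hw : κ * ν' - ν' * κ ∈ lie G := lie_br hG.closed hκ hν'.2
  have hwp : κ * ν' - ν' * κ ∈ pp G := by
    refine ⟨fun j => ?_, hw⟩
    show (κ j * ν' j - ν' j * κ j)ᵀ = κ j * ν' j - ν' j * κ j
    rw [transpose_sub, transpose_mul, transpose_mul, hκs, hsν]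
    simp only [Matrix.mul_neg, Matrix.neg_mul]
    abel
  have hwi : (κ * ν' - ν' * κ) i = κ i * ν i - ν i * κ i := by
    show κ i * ν' i - ν' i * κ i = κ i * ν i - ν i * κ i
    rw [hνi]
  have h1 := hrep _ hwp
  rw [hwi] at h1
  have h2 : ((κ i * ν i - ν i * κ i) * Z).trace = 0 := by
    rw [Matrix.sub_mul, trace_sub, Matrix.mul_assoc, Matrix.mul_assoc (ν i) (κ i) Z,
      Matrix.trace_mul_comm (ν i) (κ i * Z), Matrix.mul_assoc, hZ, sub_self]
  have hκi : κ i = ν i * w0 i - w0 i * ν i := by rw [hκj, hνi, hzi]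
  have h3 : ((κ i * ν i - ν i * κ i) * w0 i).trace = (κ i * κ i).trace := by
    have e : (ν i * κ i * w0 i).trace = (κ i * (w0 i * ν i)).trace := by
      rw [Matrix.mul_assoc, Matrix.trace_mul_comm, Matrix.mul_assoc]
    rw [Matrix.sub_mul, trace_sub, e, Matrix.mul_assoc, ← trace_sub, ← Matrix.mul_sub, ← hκi]
  have h4 : κ i = 0 := by
    have h5 : ((κ i)ᴴ * κ i).trace = 0 := by
      rw [Matrix.conjTranspose_eq_transpose_of_trivial, hκs, Matrix.neg_mul, trace_neg,
        ← h3, ← h1, h2, neg_zero]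
    exact Matrix.trace_conjTranspose_mul_self_eq_zero_iff.1 h5
  have hcomm : w0 i * ν i = ν i * w0 i := by
    rw [h4] at hκi
    exact (sub_eq_zero.1 hκi.symm).symm
  obtain ⟨c, hc⟩ : ∃ c : ℝ, w0 i = c • ν i := by
    obtain ⟨c, hc | hc⟩ := hR.rank w0 hw0' ν hν i hcomm
    · exact ⟨c, hc⟩
    · have hc0 : c ≠ 0 := by
        rintro rfl
        rw [zero_smul] at hc
        exact h0 hc
      refine ⟨c⁻¹, ?_⟩
      rw [hc, smul_smul, inv_mul_cancel₀ hc0, one_smul]
  have ha := hrep x hx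
  have hb := hrep ν hν
  rw [hc, Matrix.mul_smul, trace_smul, smul_eq_mul] at ha hb
  rw [ha, hb]
  ring

end Pool.Agent.MP_417c68_gt
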