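import Mathlib
import Pool.Agent.Lib.MP_417c68_gt.Polar
import Pool.Agent.Lib.MP_417c68_gt.Cpt
import Pool.Agent.Lib.MP_417c68_gt.Fr
import Pool.Agent.Lib.MP_417c68_gt.Riesz

/-!
# MP_417c68_gt: cocompactness implies that 𝔭(H) and 𝔭(L) span 𝔭(G)

Text: `/team-store/TEXT_417c68.md`.
-/

noncomputable section

namespace Pool.Agent.MP_417c68_gt

open Matrix NormedSpace

variable {n : ℕ} {N : Fin n → ℕ}

variable {G H L : Subgroup (Alg N)ˣ}

private theorem cocpt_expsq {m : ℕ} (A : Matrix (Fin m) (Fin m) ℝ) (s : ℝ) :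
    exp (s • A) * exp (s • A) = exp ((2 * s) • A) := by
  rw [← Matrix.exp_add_of_commute _ _ (Commute.refl _), ← add_smul, two_mul]

private theorem cocpt_expsq' {m : ℕ} (A : Matrix (Fin m) (Fin m) ℝ) (s : ℝ) :
    exp (-(s • A)) * exp (-(s • A)) = exp (-((2 * s) • A)) := by
  rw [← Matrix.exp_add_of_commute _ _ (Commute.refl _), ← neg_add, ← add_smul, two_mul]

/-- the two-sided inequality in one block -/
private theorem cocpt_block {m : ℕ} {x y A : Matrix (Fin m) (Fin m) ℝ} (hx : xᵀ = x)
    (hy : yᵀ = y) (hA : Aᵀ = A) (s : ℝ) :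
    ((exp ((2 * s) • A)).trace + (exp (-((2 * s) • A))).trace) +
      2 * ((x + y) * (exp ((2 * s) • A) - exp (-((2 * s) • A)))).trace ≤
    fr (exp y * exp (s • A) * exp x) + fr (exp (-x) * exp (-(s • A)) * exp (-y)) := by
  have h1 := fr_conv x y (exp (s • A)) hx hy
  have h2 := fr_conv (-y) (-x) (exp (-(s • A))) (by rw [Matrix.transpose_neg, hy])
    (by rw [Matrix.transpose_neg, hx])
  have e1 : (exp (s • A))ᵀ = exp (s • A) := by
    rw [← Matrix.exp_transpose, Matrix.transpose_smul, hA]
  have e2 : (exp (-(s • A)))ᵀ = exp (-(s • A)) := by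
    rw [← Matrix.exp_transpose, Matrix.transpose_neg, Matrix.transpose_smul, hA]
  have f1 : fr (exp (s • A)) = (exp ((2 * s) • A)).trace := by
    unfold fr
    rw [e1, cocpt_expsq]
  have f2 : fr (exp (-(s • A))) = (exp (-((2 * s) • A))).trace := by
    unfold fr
    rw [e2, cocpt_expsq']
  have g1 : ((exp (s • A))ᵀ * (y * exp (s • A) + exp (s • A) * x)).trace =
      ((x + y) * exp ((2 * s) • A)).trace := by
    rw [e1, Matrix.mul_add, Matrix.trace_add, Matrix.trace_mul_comm, Matrix.mul_assoc,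
      cocpt_expsq, ← Matrix.mul_assoc, cocpt_expsq, Matrix.trace_mul_comm _ x, Matrix.add_mul,
      Matrix.trace_add, add_comm]
  have g2 : ((exp (-(s • A)))ᵀ * (-x * exp (-(s • A)) + exp (-(s • A)) * -y)).trace =
      -((x + y) * exp (-((2 * s) • A))).trace := by
    rw [e2, Matrix.mul_add, Matrix.trace_add, Matrix.trace_mul_comm, Matrix.mul_assoc,
      cocpt_expsq', ← Matrix.mul_assoc, cocpt_expsq', Matrix.trace_mul_comm _ (-y),
      Matrix.add_mul, Matrix.trace_add, Matrix.neg_mul, Matrix.neg_mul, Matrix.trace_neg,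
      Matrix.trace_neg, neg_add]
  rw [f1, g1] at h1
  rw [f2, g2] at h2
  rw [Matrix.mul_sub, Matrix.trace_sub]
  linarith

private theorem cocpt_comm {m : ℕ} (A : Matrix (Fin m) (Fin m) ℝ) (s : ℝ) :
    (exp (s • A) - exp (-(s • A))) * A = A * (exp (s • A) - exp (-(s • A))) := by
  have h1 : Commute A (exp (s • A)) := by
    have h0 : Commute A (s • A) := (Commute.refl A).smul_right s
    exact h0.exp_right
  have h2 : Commute A (exp (-(s • A))) := by
    have h0 : Commute A (-(s • A)) := ((Commute.refl A).smul_right s).neg_right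
    exact h0.exp_right
  exact ((h1.sub_right h2).eq).symm

private theorem cocpt_mulsum (x y z : Alg N) : ip (x + y) z = ip x z + ip y z := by
  unfold ip
  rw [← Finset.sum_add_distrib]
  refine Finset.sum_congr rfl fun i _ => ?_
  rw [Pi.add_apply, Matrix.add_mul, Matrix.trace_add]

theorem orth_zero (hG : SelfAdj G) (hR : RankOne G) (hH : SelfAdj H) (hL : SelfAdj L)
    (hHG : H ≤ G) (hLG : L ≤ G) (R : ℝ)
    (hc : ∀ g ∈ G, ∃ l ∈ L, ∃ c ∈ KR N R, ∃ h ∈ H, g = l * c * h) {ν : Alg N} (hν : ν ∈ pp G)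
    (h1 : ∀ x ∈ pp H, ip x ν = 0) (h2 : ∀ y ∈ pp L, ip y ν = 0) : ν = 0 := by
  classical
  by_contra hne
  -- the data attached to the element `ν`
  set S : Finset (Fin n) := Finset.univ.filter fun i => ν i ≠ 0 with hS
  have hSne : S.Nonempty := by
    by_contra hE
    rw [Finset.not_nonempty_iff_eq_empty] at hE
    apply hne
    funext i
    by_contra hi
    have : i ∈ S := by
      rw [hS, Finset.mem_filter]
      exact ⟨Finset.mem_univ i, hi⟩
    rw [hE] at this
    exact absurd this (Finset.notMem_empty i)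
  have ht : ∀ i ∈ S, 0 < (ν i * ν i).trace := by
    intro i hi
    rw [hS, Finset.mem_filter] at hi
    refine lt_of_le_of_ne (sq_nonneg' (hν.1 i)) fun h => hi.2 (zero_of_sq (hν.1 i) h.symm)
  choose r hr0 hr using fun i => trZ_upper (hν.1 i)
  set D : ℝ := ∑ i ∈ S, (ν i * ν i).trace / r i with hD
  have hDpos : 0 < D := Finset.sum_pos (fun i hi => div_pos (ht i hi) (hr0 i)) hSne
  -- the main inequality
  have key : ∀ s : ℝ, 0 < s → D ≤ 2 * R * (S.card / (4 * s)) := by
    intro s hs
    obtain ⟨l, hl, c, hcR, h, hh, hE⟩ := hc (eu (s • ν)) (hν.2 s)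
    obtain ⟨y, hy, k1, hk1, ho1, hy1⟩ := polar_right hL (L.inv_mem hl)
    obtain ⟨x, hx, k2, hk2, ho2, hx1⟩ := polar_left hH (H.inv_mem hh)
    have hxG : x ∈ pp G := pp_mono hHG hx
    have hyG : y ∈ pp G := pp_mono hLG hy
    have hc' : eu y * eu (s • ν) * eu x = k1⁻¹ * c * k2⁻¹ := by
      have a1 : eu y = k1⁻¹ * l⁻¹ := by rw [hy1]; group
      have a2 : eu x = h⁻¹ * k2⁻¹ := by rw [hx1]; group
      rw [a1, a2, hE]
      group
    have hci : eu (-x) * eu (-(s • ν)) * eu (-y) = k2 * c⁻¹ * k1 := by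
      have a3 : eu (-x) * eu (-(s • ν)) * eu (-y) = (eu y * eu (s • ν) * eu x)⁻¹ := by
        rw [eu_neg, eu_neg, eu_neg]
        group
      rw [a3, hc']
      group
    have hb1 : ∀ i, fr (exp (y i) * exp (s • ν i) * exp (x i)) ≤ R := by
      intro i
      have a4 : exp (y i) * exp (s • ν i) * exp (x i) = (k1⁻¹).1 i * c.1 i * (k2⁻¹).1 i :=
        congrFun (congrArg Units.val hc') i
      rw [a4, fr_orth_right (orth_right (orth_inv ho2) i), fr_orth_left (orth_inv ho1 i)]
      exact (hcR i).1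
    have hb2 : ∀ i, fr (exp (-x i) * exp (-(s • ν i)) * exp (-y i)) ≤ R := by
      intro i
      have a4 : exp (-x i) * exp (-(s • ν i)) * exp (-y i) = k2.1 i * (c⁻¹).1 i * k1.1 i :=
        congrFun (congrArg Units.val hci) i
      rw [a4, fr_orth_right (orth_right ho1 i), fr_orth_left (ho2 i)]
      exact (hcR i).2
    -- the inequality in the block `i`
    have hblk : ∀ i ∈ S, (ν i * ν i).trace / r i + 2 * ((x i + y i) * ν i).trace ≤
        2 * R / (4 * s) := by
      intro i hi
      have hti := ht i hi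
      set Z := exp ((2 * s) • ν i) - exp (-((2 * s) • ν i)) with hZ
      set P := (exp ((2 * s) • ν i)).trace + (exp (-((2 * s) • ν i))).trace with hP
      have b1 : P + 2 * ((x i + y i) * Z).trace ≤ 2 * R := by
        have := cocpt_block (hx.1 i) (hy.1 i) (hν.1 i) s
        have c1 := hb1 i
        have c2 := hb2 i
        linarith
      have b2 : 4 * s * (ν i * ν i).trace ≤ (ν i * Z).trace := trZ_lower (hν.1 i) hs.le
      have b3 : (ν i * Z).trace ≤ r i * P := hr i s
      have b4 := riesz hG hR hν hxG i Z (cocpt_comm (ν i) (2 * s))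
      have b5 := riesz hG hR hν hyG i Z (cocpt_comm (ν i) (2 * s))
      have b6 : ((x i + y i) * Z).trace * (ν i * ν i).trace =
          ((x i + y i) * ν i).trace * (ν i * Z).trace := by
        rw [Matrix.add_mul, Matrix.trace_add, Matrix.add_mul, Matrix.trace_add, add_mul, add_mul,
          b4, b5]
      have hzpos : 0 < (ν i * Z).trace := lt_of_lt_of_le (by positivity) b2
      -- multiply by `t / (ν Z)`
      have b7 : (ν i * ν i).trace / (ν i * Z).trace * (P + 2 * ((x i + y i) * Z).trace) ≤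
          (ν i * ν i).trace / (ν i * Z).trace * (2 * R) :=
        mul_le_mul_of_nonneg_left b1 (by positivity)
      have b8 : (ν i * ν i).trace / (ν i * Z).trace * (P + 2 * ((x i + y i) * Z).trace) =
          (ν i * ν i).trace * P / (ν i * Z).trace + 2 * ((x i + y i) * ν i).trace := by
        field_simp
        linear_combination 2 * b6
      have b9 : (ν i * ν i).trace / r i ≤ (ν i * ν i).trace * P / (ν i * Z).trace := by
        rw [div_le_div_iff₀ (hr0 i) hzpos]
        have := mul_le_mul_of_nonneg_left b3 hti.le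
        linarith
      have hR0 : 0 ≤ 2 * R := by
        have := fr_nonneg (exp (y i) * exp (s • ν i) * exp (x i))
        have c1 := hb1 i
        linarith
      have b10 : (ν i * ν i).trace / (ν i * Z).trace * (2 * R) ≤ 2 * R / (4 * s) := by
        have : (ν i * ν i).trace / (ν i * Z).trace ≤ 1 / (4 * s) := by
          rw [div_le_div_iff₀ hzpos (by positivity)]
          linarith
        calc (ν i * ν i).trace / (ν i * Z).trace * (2 * R) ≤ 1 / (4 * s) * (2 * R) :=
              mul_le_mul_of_nonneg_right this hR0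
          _ = 2 * R / (4 * s) := by ring
      linarith
    have hsum := Finset.sum_le_sum hblk
    rw [Finset.sum_add_distrib, ← hD, Finset.sum_const, nsmul_eq_mul] at hsum
    have hzero : ∑ i ∈ S, 2 * ((x i + y i) * ν i).trace = 0 := by
      rw [← Finset.mul_sum]
      have d1 : ∑ i ∈ S, ((x i + y i) * ν i).trace = ip (x + y) ν := by
        unfold ip
        refine Finset.sum_subset (Finset.subset_univ S) fun i _ hi => ?_
        have : ν i = 0 := by
          by_contra h0
          exact hi (by rw [hS, Finset.mem_filter]; exact ⟨Finset.mem_univ i, h0⟩)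
        rw [this, Matrix.mul_zero, Matrix.trace_zero]
      rw [d1, cocpt_mulsum, h1 x hx, h2 y hy, add_zero, mul_zero]
    rw [hzero, add_zero] at hsum
    calc D ≤ (S.card : ℝ) * (2 * R / (4 * s)) := hsum
      _ = 2 * R * (S.card / (4 * s)) := by ring
  -- conclusion
  have hcard : (0 : ℝ) < S.card := by exact_mod_cast hSne.card_pos
  have hRpos : 0 < R := by
    have := key 1 one_pos
    by_contra hneg
    have h3 : 2 * R * ((S.card : ℝ) / (4 * 1)) ≤ 0 :=
      mul_nonpos_of_nonpos_of_nonneg (by linarith) (by positivity)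
    linarith
  have := key (R * S.card / D) (by positivity)
  have h4 : 2 * R * ((S.card : ℝ) / (4 * (R * S.card / D))) = D / 2 := by
    field_simp
    ring
  rw [h4] at this
  linarith

/-- the trace form on a subspace of symmetric elements -/
private def cocptB (P : Submodule ℝ (Alg N)) : P →ₗ[ℝ] Module.Dual ℝ P :=
  LinearMap.mk₂ ℝ (fun x y : P => ip y.1 x.1)
    (fun x x' y => by
      unfold ip
      rw [← Finset.sum_add_distrib]
      refine Finset.sum_congr rfl fun i _ => ?_
      rw [Submodule.coe_add, Pi.add_apply, Matrix.mul_add, Matrix.trace_add])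
    (fun c x y => by
      unfold ip
      rw [smul_eq_mul, Finset.mul_sum]
      refine Finset.sum_congr rfl fun i _ => ?_
      rw [Submodule.coe_smul, Pi.smul_apply, Matrix.mul_smul, Matrix.trace_smul, smul_eq_mul])
    (fun x y y' => by
      rw [Submodule.coe_add, cocpt_mulsum])
    (fun c x y => by
      unfold ip
      rw [smul_eq_mul, Finset.mul_sum]
      refine Finset.sum_congr rfl fun i _ => ?_
      rw [Submodule.coe_smul, Pi.smul_apply, Matrix.smul_mul, Matrix.trace_smul, smul_eq_mul])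

theorem sum_all (hG : SelfAdj G) (hR : RankOne G) (hH : SelfAdj H) (hL : SelfAdj L)
    (hHG : H ≤ G) (hLG : L ≤ G) (R : ℝ)
    (hc : ∀ g ∈ G, ∃ l ∈ L, ∃ c ∈ KR N R, ∃ h ∈ H, g = l * c * h) :
    ∀ z ∈ pp G, ∃ x ∈ pp H, ∃ y ∈ pp L, z = x + y := by
  have hinj : Function.Injective (cocptB (pS G)) := by
    rw [injective_iff_map_eq_zero]
    intro ν hν0
    have hν : ν.1 ∈ pp G := (mem_pS hG.closed).1 ν.2
    have h0 : ip ν.1 ν.1 = 0 := by
      have := LinearMap.congr_fun hν0 ν
      exact this
    have h1 : ∀ i, (ν.1 i * ν.1 i).trace = 0 := by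
      intro i
      unfold ip at h0
      exact (Finset.sum_eq_zero_iff_of_nonneg fun i _ => sq_nonneg' (hν.1 i)).1 h0 i
        (Finset.mem_univ i)
    apply Subtype.ext
    funext i
    exact zero_of_sq (hν.1 i) (h1 i)
  have hsurj : Function.Surjective (cocptB (pS G)) :=
    (LinearMap.injective_iff_surjective_of_finrank_eq_finrank
      (Subspace.dual_finrank_eq (K := ℝ) (V := pS G)).symm).1 hinj
  set p : Submodule ℝ (pS G) := (pS H ⊔ pS L).comap (pS G).subtype with hp
  have htop : p = ⊤ := by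
    by_contra hne
    obtain ⟨f, hf0, hf⟩ := Submodule.exists_le_ker_of_lt_top p (lt_top_iff_ne_top.2 hne)
    obtain ⟨ν, hν⟩ := hsurj f
    apply hf0
    have hνG : ν.1 ∈ pp G := (mem_pS hG.closed).1 ν.2
    have hz : ∀ x : Alg N, x ∈ pS H ⊔ pS L → x ∈ pp G → ip x ν.1 = 0 := by
      intro x hx hxG
      have h3 : (⟨x, (mem_pS hG.closed).2 hxG⟩ : pS G) ∈ p := by
        rw [hp, Submodule.mem_comap]
        exact hx
      have h4 : f ⟨x, (mem_pS hG.closed).2 hxG⟩ = 0 := LinearMap.mem_ker.1 (hf h3)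
      rw [← hν] at h4
      exact h4
    have h5 : ν.1 = 0 := orth_zero hG hR hH hL hHG hLG R hc hνG
      (fun x hx => hz x (Submodule.mem_sup_left ((mem_pS hH.closed).2 hx)) (pp_mono hHG hx))
      (fun y hy => hz y (Submodule.mem_sup_right ((mem_pS hL.closed).2 hy)) (pp_mono hLG hy))
    have h6 : ν = 0 := Subtype.ext h5
    rw [← hν, h6, map_zero]
  intro z hz
  have h7 : (⟨z, (mem_pS hG.closed).2 hz⟩ : pS G) ∈ p := by
    rw [htop]
    exact Submodule.mem_top
  rw [hp, Submodule.mem_comap] at h7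
  obtain ⟨x, hx, y, hy, hxy⟩ := Submodule.mem_sup.1 h7
  exact ⟨x, (mem_pS hH.closed).1 hx, y, (mem_pS hL.closed).1 hy, hxy.symm⟩

end Pool.Agent.MP_417c68_gt
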