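import Mathlib
import Pool.Agent.Lib.MP_417c68_gt.Lie
import Pool.Agent.Lib.MP_417c68_gt.Cpt
import Pool.Agent.Lib.MP_417c68_gt.Polar

/-!
# MP_417c68_gt: conjugation into a centraliser

Text: `/team-store/TEXT_417c68.md`.
-/

noncomputable section

namespace Pool.Agent.MP_417c68_gt

open Matrix NormedSpace

variable {n : ℕ} {N : Fin n → ℕ}

open Filter Topology in
set_option backward.isDefEq.respectTransparency false in
private theorem cjl_deriv {m : ℕ} (X Y : Matrix (Fin m) (Fin m) ℝ) :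
    Tendsto (fun s : ℝ => s⁻¹ • (exp (s • X) * Y * exp (-(s • X)) - Y)) (𝓝[≠] 0)
      (𝓝 (X * Y - Y * X)) := by
  open scoped Norms.Operator in
  have hX : HasDerivAt (fun s : ℝ => exp (s • X)) X 0 := by
    have := hasDerivAt_exp_smul_const (𝕂 := ℝ) X 0
    simpa using this
  have hX2 : HasDerivAt (fun s : ℝ => exp (s • (-X))) (-X) 0 := by
    have := hasDerivAt_exp_smul_const (𝕂 := ℝ) (-X) 0
    simpa using this
  have hF : HasDerivAt (fun s : ℝ => exp (s • X) * Y * exp (s • (-X))) (X * Y - Y * X) 0 := by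
    refine ((hX.mul_const Y).mul hX2).congr_deriv ?_
    simp [sub_eq_add_neg]
  rw [hasDerivAt_iff_tendsto_slope_zero] at hF
  refine hF.congr fun s => ?_
  simp

private theorem cjl_mul (k k' : (Alg N)ˣ) (X : Alg N) : cA (k * k') X = cA k (cA k' X) := by
  unfold cA
  rw [_root_.mul_inv_rev, Units.val_mul, Units.val_mul]
  simp only [mul_assoc]

private theorem cjl_cont (x a : Alg N) : Continuous fun k : (Alg N)ˣ => ip (cA k x) a := by
  unfold ip
  refine continuous_finsetSum _ fun i _ => ?_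
  have h1 : Continuous fun g : (Alg N)ˣ => g.1 i :=
    (continuous_apply i).comp Units.continuous_val
  have h2 : Continuous fun g : (Alg N)ˣ => (g⁻¹).1 i :=
    (continuous_apply i).comp (Units.continuous_val.comp continuous_inv)
  have h3 : Continuous fun g : (Alg N)ˣ => g.1 i * x i * (g⁻¹).1 i * a i :=
    ((h1.matrix_mul continuous_const).matrix_mul h2).matrix_mul continuous_const
  exact h3.matrix_trace

private theorem cjl_orth {κ : Alg N} (hκ : ∀ i, (κ i)ᵀ = -κ i) (s : ℝ) :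
    Orth (eu (s • κ)) := by
  intro i
  show (exp ((s • κ) i))ᵀ * exp ((s • κ) i) = 1
  rw [← Matrix.exp_transpose, Pi.smul_apply, Matrix.transpose_smul, hκ i, smul_neg,
    ← Matrix.exp_add_of_commute _ _ (Commute.refl (s • κ i)).neg_left, neg_add_cancel, exp_zero]

/-- For `x, a ∈ 𝔭(H)` some `k ∈ H ∩ O` makes `k x k⁻¹` commute with `a`. -/
theorem conj_comm {H : Subgroup (Alg N)ˣ} (hH : SelfAdj H) {x a : Alg N} (hx : x ∈ pp H)
    (ha : a ∈ pp H) : ∃ k ∈ H, Orth k ∧ cA k x * a = a * cA k x := by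
  have hK : IsCompact ((H : Set (Alg N)ˣ) ∩ {k : (Alg N)ˣ | Orth k}) :=
    isCompact_orth.inter_left hH.closed
  have hne : ((H : Set (Alg N)ˣ) ∩ {k : (Alg N)ˣ | Orth k}).Nonempty := by
    refine ⟨1, H.one_mem, fun i => ?_⟩
    show (1 : Matrix (Fin (N i)) (Fin (N i)) ℝ)ᵀ * 1 = 1
    rw [Matrix.transpose_one, Matrix.mul_one]
  obtain ⟨k, hk, hmax⟩ := hK.exists_isMaxOn hne (cjl_cont x a).continuousOn
  refine ⟨k, hk.1, hk.2, ?_⟩
  have hx' : cA k x ∈ pp H := pp_cA hk.1 hk.2 hx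
  obtain ⟨y, hy⟩ : ∃ y, y = cA k x := ⟨_, rfl⟩
  rw [← hy] at hx' ⊢
  obtain ⟨κ, hκ⟩ : ∃ κ, κ = y * a - a * y := ⟨_, rfl⟩
  have hκl : κ ∈ lie H := by
    rw [hκ]
    exact lie_br hH.closed hx'.2 ha.2
  have hκT : ∀ i, (κ i)ᵀ = -κ i := by
    intro i
    rw [hκ]
    show (y i * a i - a i * y i)ᵀ = -(y i * a i - a i * y i)
    rw [Matrix.transpose_sub, Matrix.transpose_mul, Matrix.transpose_mul, hx'.1 i, ha.1 i,
      neg_sub]
  have hle : ∀ s : ℝ, ip (cA (eu (s • κ)) y) a ≤ ip y a := by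
    intro s
    have h1 : eu (s • κ) * k ∈ (H : Set (Alg N)ˣ) ∩ {k : (Alg N)ˣ | Orth k} :=
      ⟨H.mul_mem (hκl s) hk.1, orth_mul (cjl_orth hκT s) hk.2⟩
    have h2 : ip (cA (eu (s • κ) * k) x) a ≤ ip (cA k x) a := hmax h1
    rw [cjl_mul, ← hy] at h2
    exact h2
  have hder : HasDerivAt (fun s : ℝ => ip (cA (eu (s • κ)) y) a)
      (∑ i, ((κ i * y i - y i * κ i) * a i).trace) 0 := by
    rw [hasDerivAt_iff_tendsto_slope_zero]
    have h1 : ∀ i : Fin n, Filter.Tendsto (fun s : ℝ =>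
        ((s⁻¹ • (exp (s • κ i) * y i * exp (-(s • κ i)) - y i)) * a i).trace)
        (nhdsWithin 0 {0}ᶜ) (nhds ((κ i * y i - y i * κ i) * a i).trace) := by
      intro i
      have hc : Continuous fun M : Matrix (Fin (N i)) (Fin (N i)) ℝ => (M * a i).trace :=
        (continuous_id.matrix_mul continuous_const).matrix_trace
      exact (hc.tendsto _).comp (cjl_deriv (κ i) (y i))
    refine (tendsto_finsetSum Finset.univ fun i _ => h1 i).congr fun s => ?_
    have e0 : ip (cA (eu ((0 : ℝ) • κ)) y) a = ip y a := by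
      rw [zero_smul, eu_zero]
      unfold cA
      rw [inv_one, Units.val_one, one_mul, mul_one]
    have e1 : ip (cA (eu ((0 + s) • κ)) y) a =
        ∑ i, (exp (s • κ i) * y i * exp (-(s • κ i)) * a i).trace := by
      rw [zero_add]
      rfl
    rw [e0, e1]
    unfold ip
    rw [← Finset.sum_sub_distrib, Finset.smul_sum]
    refine Finset.sum_congr rfl fun i _ => ?_
    rw [Matrix.smul_mul, Matrix.trace_smul, Matrix.sub_mul, Matrix.trace_sub]
  have hmax0 : IsLocalMax (fun s : ℝ => ip (cA (eu (s • κ)) y) a) 0 := by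
    refine Filter.Eventually.of_forall fun s => ?_
    have e0 : ip (cA (eu ((0 : ℝ) • κ)) y) a = ip y a := by
      rw [zero_smul, eu_zero]
      unfold cA
      rw [inv_one, Units.val_one, one_mul, mul_one]
    show ip (cA (eu (s • κ)) y) a ≤ ip (cA (eu ((0 : ℝ) • κ)) y) a
    rw [e0]
    exact hle s
  have hzero := hmax0.hasDerivAt_eq_zero hder
  have hterm : ∀ i, ((κ i * y i - y i * κ i) * a i).trace = -fr (κ i) := by
    intro i
    have e1 : κ i = y i * a i - a i * y i := by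
      rw [hκ]
      rfl
    unfold fr
    rw [hκT i, Matrix.neg_mul, Matrix.trace_neg, neg_neg]
    rw [Matrix.sub_mul, Matrix.trace_sub, Matrix.mul_assoc (y i), Matrix.trace_mul_comm (y i),
      Matrix.mul_assoc (κ i) (y i), Matrix.mul_assoc (κ i) (a i), ← Matrix.trace_sub,
      ← Matrix.mul_sub, ← e1]
  have hsum : ∑ i, fr (κ i) = 0 := by
    have h1 : ∑ i, ((κ i * y i - y i * κ i) * a i).trace = -∑ i, fr (κ i) := by
      rw [← Finset.sum_neg_distrib]
      exact Finset.sum_congr rfl fun i _ => hterm i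
    rw [hzero] at h1
    linarith
  have hk0 : ∀ i, κ i = 0 := by
    intro i
    exact fr_eq_zero ((Finset.sum_eq_zero_iff_of_nonneg fun i _ => fr_nonneg (κ i)).1 hsum i
      (Finset.mem_univ i))
  have h0 : y * a - a * y = 0 := by
    rw [← hκ]
    funext i
    exact hk0 i
  exact sub_eq_zero.1 h0

end Pool.Agent.MP_417c68_gt
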