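import Mathlib
import Pool.Agent.Lib.MP_417c68_gt.Polar
import Pool.Agent.Lib.MP_417c68_gt.Cpt

/-!
# MP_417c68_gt: the infinitesimal criterion implies the criterion

Text: `/team-store/TEXT_417c68.md`.
-/

noncomputable section

namespace Pool.Agent.MP_417c68_gt

open Matrix NormedSpace

variable {n : ℕ} {N : Fin n → ℕ}

variable {G H : Subgroup (Alg N)ˣ}

private theorem critA_eu {X : Alg N} (hX : X ∈ pp H) : eu X ∈ H := by
  have h := hX.2 1
  rwa [one_smul] at h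

private theorem critA_one {a h : (Alg N)ˣ} {i : Fin n} (hi : h.1 i = 1) :
    (a * h * a⁻¹).1 i = 1 := by
  have h1 : a.1 i * (a⁻¹).1 i = 1 := congrFun a.mul_inv i
  show a.1 i * h.1 i * (a⁻¹).1 i = 1
  rw [hi, mul_one, h1]

private theorem critA_closed {a : (Alg N)ˣ} (h : IsClosed (cj a H : Set (Alg N)ˣ)) :
    IsClosed (H : Set (Alg N)ˣ) := by
  have hc : Continuous fun g : (Alg N)ˣ => a * g * a⁻¹ := by fun_prop
  have h1 := h.preimage hc
  convert h1 using 1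
  ext g
  show g ∈ H ↔ a * g * a⁻¹ ∈ cj a H
  rw [mem_cj]
  have h2 : a⁻¹ * (a * g * a⁻¹) * a = g := by group
  rw [h2]

private theorem critA_ker {a : (Alg N)ˣ} (hS : SelfAdj (cj a H)) {I : Finset (Fin n)}
    (hI : ∀ X ∈ pp (cj a H), (∀ i ∈ I, X i = 0) → X = 0) :
    IsCompact {h : (Alg N)ˣ | h ∈ H ∧ ∀ i ∈ I, h.1 i = 1} := by
  have hc : Continuous fun k : (Alg N)ˣ => a⁻¹ * k * a := by fun_prop
  refine ((isCompact_orth (N := N)).image hc).of_isClosed_subset ?_ ?_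
  · have h1 := critA_closed hS.closed
    have h2 : IsClosed {h : (Alg N)ˣ | ∀ i ∈ I, h.1 i = 1} := by
      have : {h : (Alg N)ˣ | ∀ i ∈ I, h.1 i = 1} = ⋂ i ∈ I, {h : (Alg N)ˣ | h.1 i = 1} := by
        ext g
        simp only [Set.mem_iInter]
        rfl
      rw [this]
      exact isClosed_biInter fun i _ =>
        isClosed_eq ((continuous_apply i).comp Units.continuous_val) continuous_const
    exact h1.inter h2
  · rintro h ⟨hh, h1⟩
    refine ⟨a * h * a⁻¹, ?_, by group⟩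
    have hm : a * h * a⁻¹ ∈ cj a H := by
      rw [mem_cj]
      have h2 : a⁻¹ * (a * h * a⁻¹) * a = h := by group
      rwa [h2]
    obtain ⟨X, hX, hp⟩ := hS.polar _ hm
    have h0 : X = 0 := by
      refine hI X hX fun i hi => ?_
      apply zero_of_exp (hX.1 i)
      rw [← hp i, critA_one (h1 i hi), Matrix.transpose_one, mul_one]
    intro i
    rw [hp i, h0, Pi.zero_apply, exp_zero]

theorem infCrit_crit (hG : SelfAdj G) (h : InfCrit G H) : Crit G H := by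
  obtain ⟨a, ha, hS, I, hinj, hsurj⟩ := h
  refine ⟨I, critA_ker hS hinj, (fun k => a⁻¹ * k) '' {k | k ∈ G ∧ Orth k}, ?_, ?_, ?_⟩
  · have h1 : IsCompact {k : (Alg N)ˣ | k ∈ G ∧ Orth k} := by
      have h2 := (isCompact_orth (N := N)).inter_left hG.closed
      exact h2
    exact h1.image (by fun_prop)
  · rintro _ ⟨k, hk, rfl⟩
    exact G.mul_mem (G.inv_mem ha) hk.1
  · intro g hg
    obtain ⟨Z, hZ, k, hk, ho, he⟩ := polar_left hG (G.mul_mem ha hg)
    obtain ⟨X, hX, hXZ⟩ := hsurj Z hZ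
    have hm : a⁻¹ * eu X * a ∈ H := mem_cj.1 (critA_eu hX)
    refine ⟨a⁻¹ * eu X * a, hm, a⁻¹ * k, ⟨k, ⟨hk, ho⟩, rfl⟩, fun i hi => ?_⟩
    have e1 : g = a⁻¹ * (eu Z * k) := by rw [← he]; group
    have e2 : a⁻¹ * eu X * a * (a⁻¹ * k) = a⁻¹ * (eu X * k) := by group
    have e3 : (a⁻¹ * (eu X * k)).1 i = (a⁻¹ * (eu Z * k)).1 i := by
      show (a⁻¹).1 i * (exp (X i) * k.1 i) = (a⁻¹).1 i * (exp (Z i) * k.1 i)
      rw [hXZ i hi]
    rw [← Pi.mul_apply, ← Units.val_mul, e2, e3, ← e1]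

end Pool.Agent.MP_417c68_gt
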