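import Mathlib
import Pool.Agent.Lib.MP_417c68_gt.Polar
import Pool.Agent.Lib.MP_417c68_gt.Cpt

/-!
# MP_417c68_gt: the criterion is sufficient

Text: `/team-store/TEXT_417c68.md`.
-/

noncomputable section

namespace Pool.Agent.MP_417c68_gt

open Matrix NormedSpace

variable {n : ℕ} {N : Fin n → ℕ}

variable {G H : Subgroup (Alg N)ˣ}

private theorem critB_blk (i : Fin n) : Continuous fun g : (Alg N)ˣ => g.1 i :=
  (continuous_apply i).comp Units.continuous_val

theorem selfAdj_LI (hG : SelfAdj G) (I : Finset (Fin n)) : SelfAdj (LI G I) := by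
  constructor
  · have h1 : ((LI G I : Subgroup (Alg N)ˣ) : Set (Alg N)ˣ) =
        (G : Set (Alg N)ˣ) ∩ ⋂ i ∈ I, {g : (Alg N)ˣ | g.1 i = 1} := by
      ext g
      rw [Set.mem_inter_iff, Set.mem_iInter₂]
      rfl
    rw [h1]
    refine hG.closed.inter (isClosed_biInter fun i _ => isClosed_eq (critB_blk i) continuous_const)
  · rintro l ⟨hl, hlI⟩
    obtain ⟨X, hX, hXe⟩ := hG.polar l hl
    refine ⟨X, ⟨hX.1, fun t => ⟨hX.2 t, fun i hi => ?_⟩⟩, hXe⟩
    have h1 := hXe i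
    rw [hlI i hi, Matrix.transpose_one, one_mul] at h1
    have h2 := zero_of_exp (hX.1 i) h1.symm
    show exp ((t • X) i) = 1
    rw [Pi.smul_apply, h2, smul_zero, exp_zero]

theorem cocompact_LI {I : Finset (Fin n)}
    (hc : ∃ C : Set (Alg N)ˣ, IsCompact C ∧ C ⊆ G ∧
      ∀ g ∈ G, ∃ h ∈ H, ∃ c ∈ C, ∀ i ∈ I, g.1 i = h.1 i * c.1 i) (hHG : H ≤ G) :
    Cocompact G H (LI G I) := by
  obtain ⟨C, hC, hCG, hC2⟩ := hc
  refine ⟨C⁻¹, hC.inv, ?_, ?_⟩
  · intro c hc
    have h1 := hCG (Set.mem_inv.mp hc)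
    exact (G.inv_mem_iff).mp h1
  · intro g hg
    obtain ⟨h, hh, c, hc, hi⟩ := hC2 g⁻¹ (G.inv_mem hg)
    refine ⟨g * h * c, ⟨G.mul_mem (G.mul_mem hg (hHG hh)) (hCG hc), ?_⟩, c⁻¹,
      Set.inv_mem_inv.mpr hc, h⁻¹, H.inv_mem hh, by group⟩
    intro i hiI
    show g.1 i * h.1 i * c.1 i = 1
    rw [mul_assoc, ← hi i hiI]
    exact congrFun g.mul_inv i

private theorem critB_frExp {m : ℕ} {A : Matrix (Fin m) (Fin m) ℝ} (hA : Aᵀ = A) :
    fr (exp A) = (exp (A + A)).trace := by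
  unfold fr
  rw [← Matrix.exp_transpose, hA, ← Matrix.exp_add_of_commute A A (Commute.refl A)]

private theorem critB_sum {m : ℕ} (A : Matrix (Fin m) (Fin m) ℝ) :
    fr A = ∑ j, ∑ k, A k j ^ 2 := by
  unfold fr
  rw [Matrix.trace]
  refine Finset.sum_congr rfl fun j _ => ?_
  rw [Matrix.diag_apply, Matrix.mul_apply]
  refine Finset.sum_congr rfl fun k _ => ?_
  rw [Matrix.transpose_apply]
  ring

private theorem critB_entry {m : ℕ} (A : Matrix (Fin m) (Fin m) ℝ) (j k : Fin m) :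
    A j k ^ 2 ≤ fr A := by
  rw [critB_sum]
  have h1 : A j k ^ 2 ≤ ∑ k', A k' k ^ 2 :=
    Finset.single_le_sum (f := fun k' => A k' k ^ 2) (fun _ _ => sq_nonneg _) (Finset.mem_univ j)
  exact h1.trans (Finset.single_le_sum (f := fun j' => ∑ k', A k' j' ^ 2)
    (fun _ _ => Finset.sum_nonneg fun _ _ => sq_nonneg _) (Finset.mem_univ k))

private theorem critB_cont {m : ℕ} : Continuous (fr : Matrix (Fin m) (Fin m) ℝ → ℝ) := by
  have h : (fr : Matrix (Fin m) (Fin m) ℝ → ℝ) = fun A => ∑ j, ∑ k, A k j ^ 2 :=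
    funext critB_sum
  rw [h]
  fun_prop

private theorem critB_S (N : Fin n → ℕ) (R : ℝ) : IsCompact {a : Alg N | ∀ i, fr (a i) ≤ R} := by
  have hbox : ∀ i, IsCompact {A : Matrix (Fin (N i)) (Fin (N i)) ℝ |
      ∀ j k, A j k ∈ Set.Icc (-Real.sqrt R) (Real.sqrt R)} := by
    intro i
    have h1 : IsCompact (Set.pi Set.univ fun _ : Fin (N i) =>
        Set.pi Set.univ fun _ : Fin (N i) => Set.Icc (-Real.sqrt R) (Real.sqrt R)) :=
      isCompact_univ_pi fun _ => isCompact_univ_pi fun _ => isCompact_Icc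
    have h2 : {A : Matrix (Fin (N i)) (Fin (N i)) ℝ |
        ∀ j k, A j k ∈ Set.Icc (-Real.sqrt R) (Real.sqrt R)} =
        (Set.pi Set.univ fun _ : Fin (N i) =>
        Set.pi Set.univ fun _ : Fin (N i) => Set.Icc (-Real.sqrt R) (Real.sqrt R)) := by
      apply Set.ext
      intro A
      constructor
      · intro h j _ k _
        exact h j k
      · intro h j k
        exact h j (Set.mem_univ _) k (Set.mem_univ _)
    rw [h2]
    exact h1
  refine (isCompact_univ_pi hbox).of_isClosed_subset ?_ ?_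
  · have : {a : Alg N | ∀ i, fr (a i) ≤ R} = ⋂ i, {a : Alg N | fr (a i) ≤ R} := by
      ext a
      rw [Set.mem_iInter]
      rfl
    rw [this]
    exact isClosed_iInter fun i =>
      isClosed_le (critB_cont.comp (continuous_apply i)) continuous_const
  · intro a ha i _ j k
    have h1 : a i j k ^ 2 ≤ R := (critB_entry (a i) j k).trans (ha i)
    have h2 := Real.abs_le_sqrt h1
    rw [abs_le] at h2
    exact h2

private theorem critB_frSym {m : ℕ} {A : Matrix (Fin m) (Fin m) ℝ} (hA : Aᵀ = A) :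
    (A * A).trace = fr A := by
  unfold fr
  rw [hA]

/-- an element of the Lie algebra which is zero on the blocks of `I` is zero -/
private theorem critB_inj {a : (Alg N)ˣ} {I : Finset (Fin n)}
    (hk : IsCompact {h : (Alg N)ˣ | h ∈ H ∧ ∀ i ∈ I, h.1 i = 1}) {X : Alg N}
    (hX : X ∈ pp (cj a H)) (h0 : ∀ i ∈ I, X i = 0) : X = 0 := by
  have hcont : Continuous fun g : (Alg N)ˣ => a * g * a⁻¹ := by fun_prop
  obtain ⟨R, hR⟩ := exists_KR (hk.image hcont)
  by_contra hne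
  obtain ⟨j, hj⟩ : ∃ j, X j ≠ 0 := by
    by_contra hcon
    push Not at hcon
    exact hne (funext hcon)
  obtain ⟨s, hs⟩ := exp_unbounded (hX.1 j) hj R
  have h1 : eu ((s / 2) • X) ∈ KR N R := by
    apply hR
    refine ⟨a⁻¹ * eu ((s / 2) • X) * a, ⟨mem_cj.mp (hX.2 (s / 2)), ?_⟩, by group⟩
    intro i hi
    show (a⁻¹).1 i * exp (((s / 2) • X) i) * a.1 i = 1
    rw [Pi.smul_apply, h0 i hi, smul_zero, exp_zero, mul_one]
    exact congrFun a.inv_mul i
  have h2 := (h1 j).1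
  have h3 : fr ((eu ((s / 2) • X)).1 j) = (exp (s • X j)).trace := by
    show fr (exp (((s / 2) • X) j)) = _
    rw [Pi.smul_apply, critB_frExp (by rw [Matrix.transpose_smul, hX.1 j]), ← add_smul]
    congr 3
    ring
  rw [h3] at h2
  linarith

/-- the closed set `𝔭(H)` -/
private theorem critB_closed (hH : IsClosed (H : Set (Alg N)ˣ)) :
    IsClosed (pp H : Set (Alg N)) := by
  have h1 : (pp H : Set (Alg N)) = (⋂ i, {X : Alg N | (X i)ᵀ = X i}) ∩
      ⋂ t : ℝ, (fun X : Alg N => eu (t • X)) ⁻¹' (H : Set (Alg N)ˣ) := by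
    ext X
    rw [Set.mem_inter_iff, Set.mem_iInter, Set.mem_iInter]
    rfl
  rw [h1]
  refine (isClosed_iInter fun i => ?_).inter (isClosed_iInter fun t => ?_)
  · exact isClosed_eq ((continuous_apply i).matrix_transpose) (continuous_apply i)
  · have h2 : Continuous fun X : Alg N => t • X := continuous_const_smul t
    exact hH.preimage (continuous_eu.comp h2)

private theorem critB_smul {X : Alg N} (hX : X ∈ pp H) (c : ℝ) : c • X ∈ pp H := by
  refine ⟨fun i => ?_, lie_smul c hX.2⟩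
  rw [Pi.smul_apply, Matrix.transpose_smul, hX.1 i]

/-- the blocks of `I` control all blocks -/
private theorem critB_bound {a : (Alg N)ˣ} {I : Finset (Fin n)} (hH : SelfAdj (cj a H))
    (hk : IsCompact {h : (Alg N)ˣ | h ∈ H ∧ ∀ i ∈ I, h.1 i = 1}) :
    ∃ M : ℝ, 0 ≤ M ∧ ∀ X ∈ pp (cj a H), ∑ i, fr (X i) ≤ M * ∑ i ∈ I, fr (X i) := by
  have hcf : ∀ J : Finset (Fin n), Continuous fun X : Alg N => ∑ i ∈ J, fr (X i) := fun J =>
    continuous_finsetSum _ fun i _ => critB_cont.comp (continuous_apply i)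
  have hsm : ∀ (J : Finset (Fin n)) (c : ℝ) (X : Alg N),
      ∑ i ∈ J, fr ((c • X) i) = c ^ 2 * ∑ i ∈ J, fr (X i) := by
    intro J c X
    rw [Finset.mul_sum]
    refine Finset.sum_congr rfl fun i _ => ?_
    unfold fr
    rw [Pi.smul_apply, Matrix.transpose_smul, Matrix.smul_mul, Matrix.mul_smul, Matrix.trace_smul,
      Matrix.trace_smul, smul_eq_mul, smul_eq_mul]
    ring
  have hnn : ∀ (J : Finset (Fin n)) (X : Alg N), 0 ≤ ∑ i ∈ J, fr (X i) := fun J X =>
    Finset.sum_nonneg fun i _ => fr_nonneg _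
  set T : Set (Alg N) := {X | X ∈ pp (cj a H) ∧ ∑ i, fr (X i) = 1} with hT
  have hTc : IsCompact T := by
    refine (critB_S N 1).of_isClosed_subset ?_ ?_
    · exact (critB_closed hH.closed).inter (isClosed_eq (hcf Finset.univ) continuous_const)
    · rintro X ⟨_, hX⟩ i
      rw [← hX]
      exact Finset.single_le_sum (f := fun i => fr (X i)) (fun i _ => fr_nonneg _)
        (Finset.mem_univ i)
  rcases T.eq_empty_or_nonempty with hTe | hTn
  · refine ⟨0, le_refl _, fun X hX => ?_⟩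
    rw [zero_mul]
    by_contra hcon
    push Not at hcon
    have h1 : (1 / Real.sqrt (∑ i, fr (X i))) • X ∈ T := by
      refine ⟨critB_smul hX _, ?_⟩
      rw [hsm, div_pow, Real.sq_sqrt hcon.le, one_pow, one_div, inv_mul_cancel₀ hcon.ne']
    rw [hTe] at h1
    exact h1
  · obtain ⟨X0, hX0, hmin⟩ := hTc.exists_isMinOn hTn (hcf I).continuousOn
    have hpos : 0 < ∑ i ∈ I, fr (X0 i) := by
      rcases (hnn I X0).eq_or_lt with h1 | h1
      · exfalso
        have h2 : ∀ i ∈ I, X0 i = 0 := by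
          intro i hi
          refine fr_eq_zero ?_
          exact (Finset.sum_eq_zero_iff_of_nonneg fun i _ => fr_nonneg _).mp h1.symm i hi
        have h3 := critB_inj hk hX0.1 h2
        have h4 := hX0.2
        rw [h3] at h4
        have h5 : ∑ i, fr ((0 : Alg N) i) = 0 := by
          refine Finset.sum_eq_zero fun i _ => ?_
          unfold fr
          rw [Pi.zero_apply, Matrix.mul_zero, Matrix.trace_zero]
        rw [h5] at h4
        exact zero_ne_one h4
      · exact h1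
    refine ⟨1 / ∑ i ∈ I, fr (X0 i), by positivity, fun X hX => ?_⟩
    rcases (hnn Finset.univ X).eq_or_lt with h1 | h1
    · rw [← h1]
      exact mul_nonneg (by positivity) (hnn I X)
    · have h2 : (1 / Real.sqrt (∑ i, fr (X i))) • X ∈ T := by
        refine ⟨critB_smul hX _, ?_⟩
        rw [hsm, div_pow, Real.sq_sqrt h1.le, one_pow, one_div, inv_mul_cancel₀ h1.ne']
      have h3 := hmin h2
      have h4 : ∑ i ∈ I, fr (X0 i) ≤ ∑ i ∈ I, fr (((1 / Real.sqrt (∑ i, fr (X i))) • X) i) := h3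
      rw [hsm, div_pow, Real.sq_sqrt h1.le, one_pow] at h4
      rw [one_div, ← div_eq_inv_mul, le_div_iff₀ hpos]
      have h5 : (∑ i, fr (X i)) * (1 / (∑ i, fr (X i)) * ∑ i ∈ I, fr (X i)) =
          ∑ i ∈ I, fr (X i) := by
        rw [← mul_assoc, mul_one_div_cancel h1.ne', one_mul]
      calc (∑ i, fr (X i)) * ∑ i ∈ I, fr (X0 i)
          ≤ (∑ i, fr (X i)) * (1 / (∑ i, fr (X i)) * ∑ i ∈ I, fr (X i)) :=
            mul_le_mul_of_nonneg_left h4 h1.le
        _ = _ := h5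

theorem proper_LI (hH : Red G H) {I : Finset (Fin n)}
    (hk : IsCompact {h : (Alg N)ˣ | h ∈ H ∧ ∀ i ∈ I, h.1 i = 1}) : ProperAct G H (LI G I) := by
  obtain ⟨_, a, _, hS⟩ := hH
  obtain ⟨M, hM0, hM⟩ := critB_bound hS hk
  intro C hC _
  have hc2 : Continuous fun p : (Alg N)ˣ × (Alg N)ˣ => a * (p.1⁻¹ * p.2) * a⁻¹ :=
    (continuous_const.mul (continuous_fst.inv.mul continuous_snd)).mul continuous_const
  obtain ⟨R1, hR1⟩ := exists_KR ((hC.prod hC).image hc2)
  have hcB := critB_S N (M * ∑ _i ∈ I, R1)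
  set B : Set (Alg N) := {X : Alg N | ∀ i, fr (X i) ≤ M * ∑ _i ∈ I, R1} with hB
  have hc3 : Continuous fun p : ((Alg N)ˣ × (Alg N)ˣ) × ((Alg N)ˣ × Alg N) =>
      p.1.1 * (a⁻¹ * (p.2.1 * eu p.2.2) * a) * p.1.2⁻¹ := by
    have e1 : Continuous fun p : ((Alg N)ˣ × (Alg N)ˣ) × ((Alg N)ˣ × Alg N) => p.1.1 :=
      continuous_fst.comp continuous_fst
    have e2 : Continuous fun p : ((Alg N)ˣ × (Alg N)ˣ) × ((Alg N)ˣ × Alg N) => p.1.2 :=
      continuous_snd.comp continuous_fst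
    have e3 : Continuous fun p : ((Alg N)ˣ × (Alg N)ˣ) × ((Alg N)ˣ × Alg N) => p.2.1 :=
      continuous_fst.comp continuous_snd
    have e4 : Continuous fun p : ((Alg N)ˣ × (Alg N)ˣ) × ((Alg N)ˣ × Alg N) => eu p.2.2 :=
      continuous_eu.comp (continuous_snd.comp continuous_snd)
    exact (e1.mul ((continuous_const.mul (e3.mul e4)).mul continuous_const)).mul e2.inv
  refine ⟨_, ((hC.prod hC).prod (isCompact_orth.prod hcB)).image hc3, ?_⟩
  intro l hl h hh c hc c' hc' he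
  have hlI : ∀ i ∈ I, l.1 i = 1 := hl.2
  have hh' : a * h * a⁻¹ ∈ cj a H := by
    rw [mem_cj]
    have : a⁻¹ * (a * h * a⁻¹) * a = h := by group
    rw [this]
    exact hh
  obtain ⟨X, hX, k, _, hko, hke⟩ := polar_right hS hh'
  have hE : a * (c'⁻¹ * c) * a⁻¹ ∈ KR N R1 := hR1 ⟨(c', c), ⟨hc', hc⟩, rfl⟩
  -- the blocks of the two elements
  have hb1 : ∀ i ∈ I, (a * h * a⁻¹).1 i = (a * (c'⁻¹ * c) * a⁻¹).1 i := by
    intro i hi
    have h1 : (l * c).1 i = (c' * h).1 i := by rw [he]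
    have h2 : l.1 i * c.1 i = c'.1 i * h.1 i := h1
    rw [hlI i hi, one_mul] at h2
    have h3 : (c'⁻¹).1 i * c'.1 i = 1 := congrFun c'.inv_mul i
    show a.1 i * h.1 i * (a⁻¹).1 i = a.1 i * ((c'⁻¹).1 i * c.1 i) * (a⁻¹).1 i
    rw [h2, ← mul_assoc ((c'⁻¹).1 i), h3, one_mul]
  have hb2 : ∀ i ∈ I, ((a * h * a⁻¹)⁻¹).1 i = ((a * (c'⁻¹ * c) * a⁻¹)⁻¹).1 i := by
    intro i hi
    have h1 : ((a * h * a⁻¹)⁻¹).1 i * (a * h * a⁻¹).1 i = 1 :=
      congrFun (a * h * a⁻¹).inv_mul i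
    have h2 : (a * (c'⁻¹ * c) * a⁻¹).1 i * ((a * (c'⁻¹ * c) * a⁻¹)⁻¹).1 i = 1 :=
      congrFun (a * (c'⁻¹ * c) * a⁻¹).mul_inv i
    rw [hb1 i hi] at h1
    calc ((a * h * a⁻¹)⁻¹).1 i = ((a * h * a⁻¹)⁻¹).1 i *
          ((a * (c'⁻¹ * c) * a⁻¹).1 i * ((a * (c'⁻¹ * c) * a⁻¹)⁻¹).1 i) := by
            rw [h2, mul_one]
      _ = _ := by rw [← mul_assoc, h1, one_mul]
  have hXI : ∀ i ∈ I, fr (X i) ≤ R1 := by
    intro i hi
    have h1 : fr ((a * h * a⁻¹).1 i) ≤ R1 := by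
      rw [hb1 i hi]
      exact (hE i).1
    have h2 : fr (((a * h * a⁻¹)⁻¹).1 i) ≤ R1 := by
      rw [hb2 i hi]
      exact (hE i).2
    rw [hke] at h1 h2
    have h3 : fr ((k * eu X).1 i) = (exp (X i + X i)).trace := by
      show fr (k.1 i * exp (X i)) = _
      rw [fr_orth_left (hko i), critB_frExp (hX.1 i)]
    have h4 : fr (((k * eu X)⁻¹).1 i) = (exp (-(X i + X i))).trace := by
      rw [_root_.mul_inv_rev, ← eu_neg]
      show fr (exp ((-X) i) * (k⁻¹).1 i) = _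
      rw [fr_orth_right (orth_right (orth_inv hko) i), Pi.neg_apply,
        critB_frExp (by rw [Matrix.transpose_neg, hX.1 i])]
      congr 2
      rw [neg_add]
    rw [h3] at h1
    rw [h4] at h2
    have h5 : (X i + X i)ᵀ = X i + X i := by rw [Matrix.transpose_add, hX.1 i]
    have h6 := sq_le_exp h5
    have h7 : ((X i + X i) * (X i + X i)).trace = 4 * fr (X i) := by
      rw [← critB_frSym (hX.1 i), Matrix.add_mul, Matrix.mul_add, Matrix.trace_add,
        Matrix.trace_add]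
      ring
    rw [h7] at h6
    have h8 := fr_nonneg (X i)
    linarith
  have hXall : ∀ i, fr (X i) ≤ M * ∑ _i ∈ I, R1 := by
    intro i
    refine (Finset.single_le_sum (f := fun i => fr (X i)) (fun i _ => fr_nonneg _)
      (Finset.mem_univ i)).trans ((hM X hX).trans ?_)
    exact mul_le_mul_of_nonneg_left (Finset.sum_le_sum hXI) hM0
  have hle : l = c' * (a⁻¹ * (k * eu X) * a) * c⁻¹ := by
    rw [← hke]
    have h1 : l = c' * h * c⁻¹ := by rw [← he]; group
    rw [h1]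
    group
  rw [hle]
  exact ⟨((c', c), (k, X)), ⟨⟨hc', hc⟩, ⟨hko, hXall⟩⟩, rfl⟩

end Pool.Agent.MP_417c68_gt
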