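import Mathlib
import Pool.Agent.Lib.MP_417c68_gt.Lie
import Pool.Agent.Lib.MP_417c68_gt.Cpt
import Pool.Agent.Lib.MP_417c68_gt.Spec

/-!
# MP_417c68_gt: proper actions

Text: `/team-store/TEXT_417c68.md`.
-/

noncomputable section

namespace Pool.Agent.MP_417c68_gt

open Matrix NormedSpace

variable {n : ℕ} {N : Fin n → ℕ}

variable {G H L : Subgroup (Alg N)ˣ}

private theorem prop_cA_smul (k : (Alg N)ˣ) (t : ℝ) (y : Alg N) : cA k (t • y) = t • cA k y := by
  unfold cA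
  funext i
  simp only [Pi.mul_apply, Pi.smul_apply, Matrix.mul_smul, Matrix.smul_mul]

private theorem prop_cA_zero (k : (Alg N)ˣ) : cA k (0 : Alg N) = 0 := by
  unfold cA
  rw [mul_zero, zero_mul]

theorem proper_cond {a b : (Alg N)ˣ} (ha : a ∈ G) (hb : b ∈ G) (hP : ProperAct G H L) :
    ∀ k ∈ G, ∀ x ∈ pp (cj a H), ∀ y ∈ pp (cj b L), cA k y = x → x = 0 := by
  intro k hk x hx y hy hxy
  obtain ⟨c, hc⟩ : ∃ c : (Alg N)ˣ, c = b⁻¹ * k⁻¹ * a := ⟨_, rfl⟩
  have hcG : c ∈ G := by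
    rw [hc]
    exact G.mul_mem (G.mul_mem (G.inv_mem hb) (G.inv_mem hk)) ha
  obtain ⟨K, hK, hKP⟩ := hP {c} isCompact_singleton (Set.singleton_subset_iff.mpr hcG)
  have hK' : IsCompact ((fun g : (Alg N)ˣ => b * g * b⁻¹) '' K) :=
    hK.image ((continuous_const.mul continuous_id).mul continuous_const)
  obtain ⟨R, hR⟩ := exists_KR hK'
  have hmem : ∀ t : ℝ, eu (t • y) ∈ KR N R := by
    intro t
    apply hR
    have h1 : a⁻¹ * eu (t • x) * a ∈ H := mem_cj.mp (hx.2 t)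
    have h2 : b⁻¹ * eu (t • y) * b ∈ L := mem_cj.mp (hy.2 t)
    have h3 : eu (t • x) = k * eu (t • y) * k⁻¹ := by
      rw [← hxy, ← prop_cA_smul, eu_cA]
    have h4 : b⁻¹ * eu (t • y) * b * c = c * (a⁻¹ * eu (t • x) * a) := by
      rw [h3, hc]
      group
    refine ⟨b⁻¹ * eu (t • y) * b, hKP _ h2 _ h1 c rfl c rfl h4, ?_⟩
    show b * (b⁻¹ * eu (t • y) * b) * b⁻¹ = eu (t • y)
    group
  have hy0 : y = 0 := by
    funext i
    by_contra hne
    obtain ⟨s, hs⟩ := exp_unbounded (hy.1 i) hne R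
    have h5 := (hmem (s / 2) i).1
    have h6 : fr ((eu ((s / 2) • y)).1 i) = (exp (s • y i)).trace := by
      show ((exp (((s / 2) • y) i))ᵀ * exp (((s / 2) • y) i)).trace = _
      have h7 : ((s / 2) • y) i = (s / 2) • y i := rfl
      have h8 : (exp ((s / 2) • y i))ᵀ = exp ((s / 2) • y i) := by
        rw [← Matrix.exp_transpose, Matrix.transpose_smul, hy.1 i]
      rw [h7, h8, ← Matrix.exp_add_of_commute _ _ (Commute.refl _), ← add_smul, add_halves]
    rw [h6] at h5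
    exact absurd hs (not_lt.mpr h5)
  rw [← hxy, hy0, prop_cA_zero]

end Pool.Agent.MP_417c68_gt
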