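import Mathlib
import Pool.Agent.Lib.MP_417c68_gt.ConjL

/-!
# MP_417c68_gt: maximal commuting subspaces

Text: `/team-store/TEXT_417c68.md`.
-/

noncomputable section

namespace Pool.Agent.MP_417c68_gt

open Matrix NormedSpace

variable {n : ℕ} {N : Fin n → ℕ}

/-- a generic element of a subspace -/
private theorem exists_generic (A : Submodule ℝ (Alg N)) :
    ∃ a ∈ A, ∀ i, (∃ x ∈ A, x i ≠ 0) → a i ≠ 0 := by
  classical
  let I : Type := {i : Fin n // ∃ x ∈ A, x i ≠ 0}
  let p : I → Submodule ℝ A := fun i =>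
    LinearMap.ker ((LinearMap.proj (R := ℝ) (φ := fun i => Matrix (Fin (N i)) (Fin (N i)) ℝ) i.1).comp
      A.subtype)
  by_cases hu : (⋃ i, (p i : Set A)) = Set.univ
  · obtain ⟨i, hi⟩ := Subspace.exists_eq_top_of_iUnion_eq_univ hu
    obtain ⟨x, hx, hxi⟩ := i.2
    have hm : (⟨x, hx⟩ : A) ∈ p i := by rw [hi]; exact Submodule.mem_top
    exact absurd (LinearMap.mem_ker.mp hm) hxi
  · obtain ⟨a, ha⟩ := (Set.ne_univ_iff_exists_notMem _).mp hu
    refine ⟨a.1, a.2, fun i hi h0 => ha ?_⟩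
    exact Set.mem_iUnion.mpr ⟨⟨i, hi⟩, LinearMap.mem_ker.mpr h0⟩

theorem max_ab {G H : Subgroup (Alg N)ˣ} (hR : RankOne G) (hH : SelfAdj H) (hHG : H ≤ G) :
    ∃ A : Submodule ℝ (Alg N), ∃ a ∈ A, (∀ x ∈ A, x ∈ pp H) ∧
      (∀ x ∈ pp H, ∃ k ∈ H, Orth k ∧ cA k x ∈ A) ∧
      ∀ x ∈ A, ∀ i, ∃ c : ℝ, x i = c • a i := by
  classical
  let S : Set (Submodule ℝ (Alg N)) :=
    {A | (∀ x ∈ A, x ∈ pp H) ∧ ∀ x ∈ A, ∀ y ∈ A, x * y = y * x}
  have h0 : (⊥ : Submodule ℝ (Alg N)) ∈ S := by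
    refine ⟨fun x hx => ?_, fun x hx y hy => ?_⟩
    · rw [(Submodule.mem_bot ℝ).mp hx]
      exact (mem_pS hH.closed).mp (pS H).zero_mem
    · rw [(Submodule.mem_bot ℝ).mp hx, (Submodule.mem_bot ℝ).mp hy]
  obtain ⟨A, hAS, hmax⟩ :=
    (wellFounded_gt (α := Submodule ℝ (Alg N))).has_min S ⟨⊥, h0⟩
  obtain ⟨hAp, hAc⟩ := hAS
  obtain ⟨a, haA, hgen⟩ := exists_generic A
  have hpG := pp_mono hHG
  -- proportionality in block i to the generic element
  have key : ∀ y ∈ pp H, y * a = a * y → ∀ i, a i ≠ 0 → ∃ c : ℝ, y i = c • a i := by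
    intro y hy hya i hai
    have hc : y i * a i = a i * y i := congrFun hya i
    obtain ⟨c, hc | hc⟩ := hR.rank y (hpG hy) a (hpG (hAp a haA)) i hc
    · exact ⟨c, hc⟩
    · have hc0 : c ≠ 0 := by
        rintro rfl
        exact hai (by rw [hc, zero_smul])
      exact ⟨c⁻¹, by rw [hc, smul_smul, inv_mul_cancel₀ hc0, one_smul]⟩
  have hz : ∀ i, a i = 0 → ∀ y ∈ A, y i = 0 := by
    intro i hai y hy
    by_contra hne
    exact hgen i ⟨y, hy, hne⟩ hai
  refine ⟨A, a, haA, hAp, ?_, ?_⟩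
  · intro x hx
    obtain ⟨k, hk, hko, hkc⟩ := conj_comm hH hx (hAp a haA)
    refine ⟨k, hk, hko, ?_⟩
    have hx' : cA k x ∈ pp H := pp_cA hk hko hx
    set x' := cA k x with hx'def
    -- x' commutes with A
    have hcomm : ∀ y ∈ A, x' * y = y * x' := by
      intro y hy
      funext i
      show x' i * y i = y i * x' i
      by_cases hai : a i = 0
      · rw [hz i hai y hy, mul_zero, zero_mul]
      · obtain ⟨c, hc⟩ := key x' hx' hkc i hai
        obtain ⟨d, hd⟩ := key y (hAp y hy) (hAc y hy a haA) i hai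
        rw [hc, hd, smul_mul_smul_comm, smul_mul_smul_comm, mul_comm c d]
    by_contra hnot
    have hB : A ⊔ Submodule.span ℝ {x'} ∈ S := by
      constructor
      · intro z hz'
        obtain ⟨y, hy, w, hw, rfl⟩ := Submodule.mem_sup.mp hz'
        obtain ⟨c, rfl⟩ := Submodule.mem_span_singleton.mp hw
        refine (mem_pS hH.closed).mp ((pS H).add_mem ((mem_pS hH.closed).mpr (hAp y hy))
          ((pS H).smul_mem c ((mem_pS hH.closed).mpr hx')))
      · intro z hz' z2 hz2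
        obtain ⟨y, hy, w, hw, rfl⟩ := Submodule.mem_sup.mp hz'
        obtain ⟨c, rfl⟩ := Submodule.mem_span_singleton.mp hw
        obtain ⟨y2, hy2, w2, hw2, rfl⟩ := Submodule.mem_sup.mp hz2
        obtain ⟨c2, rfl⟩ := Submodule.mem_span_singleton.mp hw2
        have e1 := hAc y hy y2 hy2
        have e2 := hcomm y hy
        have e3 := hcomm y2 hy2
        rw [add_mul, mul_add, mul_add, add_mul, mul_add, mul_add]
        rw [smul_mul_smul_comm, smul_mul_smul_comm, mul_smul_comm, smul_mul_assoc,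
          mul_smul_comm, smul_mul_assoc, e1, e2, e3, mul_comm c2 c]
        abel
    refine hmax _ hB ?_
    show A < A ⊔ Submodule.span ℝ {x'}
    refine lt_of_le_of_ne le_sup_left ?_
    intro heq
    apply hnot
    rw [heq]
    exact (le_sup_right : Submodule.span ℝ {x'} ≤ A ⊔ Submodule.span ℝ {x'})
      (Submodule.mem_span_singleton_self x')
  · intro x hx i
    by_cases hai : a i = 0
    · exact ⟨0, by rw [hz i hai x hx, zero_smul]⟩
    · exact key x (hAp x hx) (hAc x hx a haA) i hai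

end Pool.Agent.MP_417c68_gt
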