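import Mathlib
import Pool.Agent.Lib.MP_417c68_gt.Defs

/-!
# MP_417c68_gt: complementary coordinates for two subspaces

Text: `/team-store/TEXT_417c68.md`.
-/

noncomputable section

namespace Pool.Agent.MP_417c68_gt

open Matrix NormedSpace

variable {n : ℕ} {N : Fin n → ℕ}

theorem coords {d : ℕ} (A B : Submodule ℝ (Fin d → ℝ)) (h : ∀ x ∈ A, x ∈ B → x = 0) :
    ∃ I : Finset (Fin d), (∀ x ∈ A, (∀ i ∈ I, x i = 0) → x = 0) ∧
      (∀ x ∈ B, (∀ i ∉ I, x i = 0) → x = 0) := by
  classical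
  have hd : Disjoint B A := by
    rw [Submodule.disjoint_def]
    intro x hxB hxA
    exact h x hxA hxB
  obtain ⟨C, hBC, hC⟩ := hd.exists_isCompl
  -- projection onto A along C
  obtain ⟨f, hfA, hfC⟩ : ∃ f : (Fin d → ℝ) →ₗ[ℝ] (Fin d → ℝ),
      (∀ x ∈ A, f x = x) ∧ (∀ x ∈ C, f x = 0) := by
    refine ⟨A.subtype.comp (A.projectionOnto C hC.symm), ?_, ?_⟩
    · intro x hx
      have h1 := Submodule.projectionOnto_apply_left hC.symm (⟨x, hx⟩ : A)
      rw [LinearMap.comp_apply, Submodule.subtype_apply]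
      exact congrArg Subtype.val h1
    · intro x hx
      have h1 := (Submodule.projectionOnto_apply_eq_zero_iff hC.symm (x := x)).2 hx
      rw [LinearMap.comp_apply, Submodule.subtype_apply, h1]
      rfl
  set P : Matrix (Fin d) (Fin d) ℝ := LinearMap.toMatrix' f with hP
  have hPx : ∀ x, P *ᵥ x = f x := by
    intro x
    have := congrArg (fun g => g x) (Matrix.toLin'_toMatrix' f)
    simp only [Matrix.toLin'_apply] at this
    exact this
  set Q : Matrix (Fin d) (Fin d) ℝ := 1 - P with hQ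
  let Pf : Fin d → Fin d → ℝ := fun i j => P i j
  let Qf : Fin d → Fin d → ℝ := fun i j => Q i j
  have hsum : ((Matrix.detRowAlternating : AlternatingMap ℝ (Fin d → ℝ) ℝ
      (Fin d)).toMultilinearMap) (Pf + Qf) = ∑ s : Finset (Fin d),
      ((Matrix.detRowAlternating : AlternatingMap ℝ (Fin d → ℝ) ℝ
        (Fin d)).toMultilinearMap) (s.piecewise Pf Qf) :=
    MultilinearMap.map_add_univ _ Pf Qf
  have hone : ((Matrix.detRowAlternating : AlternatingMap ℝ (Fin d → ℝ) ℝ
      (Fin d)).toMultilinearMap) (Pf + Qf) = 1 := by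
    have h1 : P + Q = 1 := by rw [hQ]; abel
    have h2 : ((Matrix.detRowAlternating :
        AlternatingMap ℝ (Fin d → ℝ) ℝ (Fin d)).toMultilinearMap) (Pf + Qf) = (P + Q).det := rfl
    rw [h2, h1, Matrix.det_one]
  obtain ⟨s, hs'⟩ : ∃ s : Finset (Fin d), ((Matrix.detRowAlternating : AlternatingMap ℝ
      (Fin d → ℝ) ℝ (Fin d)).toMultilinearMap) (s.piecewise Pf Qf) ≠ 0 := by
    by_contra hcon
    push Not at hcon
    have : (1 : ℝ) = 0 := by
      rw [← hone, hsum]
      exact Finset.sum_eq_zero (fun s _ => hcon s)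
    exact one_ne_zero this
  set M : Matrix (Fin d) (Fin d) ℝ := Matrix.of (s.piecewise Pf Qf) with hM
  have hs : M.det ≠ 0 := hs'
  have hrow1 : ∀ x i, i ∈ s → (M *ᵥ x) i = (P *ᵥ x) i := by
    intro x i hi
    simp [hM, Matrix.mulVec, Finset.piecewise, hi, Pf, dotProduct]
  have hrow2 : ∀ x i, i ∉ s → (M *ᵥ x) i = (Q *ᵥ x) i := by
    intro x i hi
    simp [hM, Matrix.mulVec, Finset.piecewise, hi, Qf, dotProduct]
  refine ⟨s, ?_, ?_⟩
  · intro x hx h0
    refine Matrix.eq_zero_of_mulVec_eq_zero hs ?_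
    funext i
    by_cases hi : i ∈ s
    · rw [hrow1 x i hi, hPx, hfA x hx]
      exact h0 i hi
    · rw [hrow2 x i hi, hQ, Matrix.sub_mulVec, Matrix.one_mulVec, hPx, hfA x hx]
      simp
  · intro x hx h0
    have hxC : x ∈ C := hBC hx
    refine Matrix.eq_zero_of_mulVec_eq_zero hs ?_
    funext i
    by_cases hi : i ∈ s
    · rw [hrow1 x i hi, hPx, hfC x hxC]
    · rw [hrow2 x i hi, hQ, Matrix.sub_mulVec, Matrix.one_mulVec, hPx, hfC x hxC]
      simpa using h0 i hi

end Pool.Agent.MP_417c68_gt
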