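import Mathlib
import Pool.Agent.Lib.MP_417c68_gt.MaxAb
import Pool.Agent.Lib.MP_417c68_gt.Nine

/-!
# MP_417c68_gt: properness gives a partition of the factors

Text: `/team-store/TEXT_417c68.md`.
-/

noncomputable section

namespace Pool.Agent.MP_417c68_gt

open Matrix NormedSpace

variable {n : ℕ} {N : Fin n → ℕ}

variable {G H L : Subgroup (Alg N)ˣ}

private lemma cA_apply (k : (Alg N)ˣ) (X : Alg N) (i : Fin n) :
    cA k X i = k.1 i * X i * (k⁻¹).1 i := rfl

private lemma cA_cA_inv (k : (Alg N)ˣ) (X : Alg N) : cA k (cA k⁻¹ X) = X := by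
  unfold cA
  rw [inv_inv, mul_assoc, mul_assoc, mul_assoc, Units.mul_inv, mul_one, ← mul_assoc,
    Units.mul_inv, one_mul]

private lemma cA_inv_cA (k : (Alg N)ˣ) (X : Alg N) : cA k⁻¹ (cA k X) = X := by
  have h := cA_cA_inv k⁻¹ X
  rwa [inv_inv] at h

private lemma cA_zero_block (k : (Alg N)ˣ) {X : Alg N} {i : Fin n} (h : X i = 0) :
    cA k X i = 0 := by
  rw [cA_apply, h, mul_zero, zero_mul]

private def cAl (k : (Alg N)ˣ) : Alg N →ₗ[ℝ] Alg N where
  toFun := cA k
  map_add' X Y := by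
    unfold cA
    rw [mul_add, add_mul]
  map_smul' c X := by
    funext i
    show k.1 i * (c • X i) * (k⁻¹).1 i = c • (k.1 i * X i * (k⁻¹).1 i)
    rw [Matrix.mul_smul, Matrix.smul_mul]

private def phi (e : Alg N) : (Fin n → ℝ) →ₗ[ℝ] Alg N where
  toFun t := fun i => t i • e i
  map_add' s t := by
    funext i
    exact add_smul _ _ _
  map_smul' c t := by
    funext i
    exact mul_smul _ _ _

private def Zs (e : Alg N) : Submodule ℝ (Fin n → ℝ) where
  carrier := {t | ∀ i, e i = 0 → t i = 0}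
  zero_mem' := fun _ _ => rfl
  add_mem' := fun {s t} hs ht i hi => by
    show s i + t i = 0
    rw [hs i hi, ht i hi, add_zero]
  smul_mem' := fun c t ht i hi => by
    show c * t i = 0
    rw [ht i hi, mul_zero]

private lemma phi_apply (e : Alg N) (t : Fin n → ℝ) (i : Fin n) : phi e t i = t i • e i := rfl

private lemma zero_of_block {e : Alg N} {t : Fin n → ℝ} (ht : t ∈ Zs e) {i : Fin n}
    (h : phi e t i = 0) : t i = 0 := by
  rw [phi_apply] at h
  rcases smul_eq_zero.1 h with h | h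
  · exact h
  · exact ht i h

/-- an element all of whose blocks are multiples of the blocks of `e` is `φ(t)` -/
private lemma exists_phi {e X : Alg N} (h : ∀ i, ∃ c : ℝ, X i = c • e i) :
    ∃ t ∈ Zs e, phi e t = X := by
  classical
  choose c hc using h
  refine ⟨fun i => if e i = 0 then 0 else c i, ?_, ?_⟩
  · intro i hi
    simp [hi]
  · funext i
    rw [phi_apply]
    by_cases hi : e i = 0
    · rw [hc i, hi, smul_zero, smul_zero]
    · simp [hi, hc i]

theorem split_I (hG : SelfAdj G) (hR : RankOne G) (hH : SelfAdj H) (hL : SelfAdj L)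
    (hHG : H ≤ G) (hLG : L ≤ G)
    (hP : ∀ k ∈ G, Orth k → ∀ x ∈ pp H, ∀ y ∈ pp L, cA k y = x → x = 0) :
    ∃ I : Finset (Fin n), (∀ x ∈ pp H, (∀ i ∈ I, x i = 0) → x = 0) ∧
      (∀ y ∈ pp L, (∀ i ∉ I, y i = 0) → y = 0) := by
  classical
  obtain ⟨A, a, haA, hA1, hA2, hA3⟩ := max_ab hR hH hHG
  obtain ⟨B, b0, hbB, hB1, hB2, hB3⟩ := max_ab hR hL hLG
  have haG : a ∈ pp G := pp_mono hHG (hA1 a haA)
  have hb0G : b0 ∈ pp G := pp_mono hLG (hB1 b0 hbB)
  obtain ⟨k, hkG, hko, hkc⟩ := conj_comm hG hb0G haG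
  have hbG : cA k b0 ∈ pp G := pp_cA hkG hko hb0G
  have hcomm : ∀ i, a i * cA k b0 i = cA k b0 i * a i := fun i => (congrFun hkc i).symm
  obtain ⟨e, he⟩ : ∃ e : Alg N, ∀ i, e i = if a i = 0 then cA k b0 i else a i :=
    ⟨fun i => if a i = 0 then cA k b0 i else a i, fun i => rfl⟩
  have hae : ∀ i, ∃ c : ℝ, a i = c • e i := by
    intro i
    by_cases hi : a i = 0
    · exact ⟨0, by rw [hi, zero_smul]⟩
    · exact ⟨1, by rw [he i, if_neg hi, one_smul]⟩
  have hbe : ∀ i, ∃ c : ℝ, cA k b0 i = c • e i := by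
    intro i
    by_cases hi : a i = 0
    · exact ⟨1, by rw [he i, if_pos hi, one_smul]⟩
    · rw [he i, if_neg hi]
      obtain ⟨c, hc | hc⟩ := hR.rank a haG (cA k b0) hbG i (hcomm i)
      · have hc0 : c ≠ 0 := by
          rintro rfl
          exact hi (by rw [hc, zero_smul])
        refine ⟨c⁻¹, ?_⟩
        rw [hc, smul_smul, inv_mul_cancel₀ hc0, one_smul]
      · exact ⟨c, hc⟩
  have hAe : ∀ x ∈ A, ∃ t ∈ Zs e, phi e t = x := by
    intro x hx
    refine exists_phi fun i => ?_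
    obtain ⟨c, hc⟩ := hA3 x hx i
    obtain ⟨d, hd⟩ := hae i
    exact ⟨c * d, by rw [hc, hd, smul_smul]⟩
  have hBe : ∀ y ∈ B, ∃ t ∈ Zs e, phi e t = cA k y := by
    intro y hy
    refine exists_phi fun i => ?_
    obtain ⟨c, hc⟩ := hB3 y hy i
    obtain ⟨d, hd⟩ := hbe i
    refine ⟨c * d, ?_⟩
    rw [cA_apply, hc, Matrix.mul_smul, Matrix.smul_mul, ← cA_apply, hd, smul_smul]
  obtain ⟨I, hI1, hI2⟩ := coords (A.comap (phi e) ⊓ Zs e)
    ((B.comap (cAl k⁻¹)).comap (phi e) ⊓ Zs e) (by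
      intro t ht ht'
      have hx : phi e t ∈ A := ht.1
      have hy : cA k⁻¹ (phi e t) ∈ B := ht'.1
      have h0 : phi e t = 0 :=
        hP k hkG hko _ (hA1 _ hx) _ (hB1 _ hy) (cA_cA_inv k _)
      funext i
      exact zero_of_block ht.2 (congrFun h0 i))
  refine ⟨I, ?_, ?_⟩
  · intro x hx hx0
    obtain ⟨k1, hk1, ho1, hkA⟩ := hA2 x hx
    obtain ⟨t, htZ, htx⟩ := hAe _ hkA
    have ht0 : t = 0 := by
      refine hI1 t ⟨?_, htZ⟩ ?_
      · show phi e t ∈ A
        rw [htx]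
        exact hkA
      · intro i hi
        refine zero_of_block htZ ?_
        rw [htx]
        exact cA_zero_block k1 (hx0 i hi)
    have h1 : cA k1 x = 0 := by
      rw [← htx, ht0, map_zero]
    rw [← cA_inv_cA k1 x, h1]
    exact map_zero (cAl k1⁻¹)
  · intro y hy hy0
    obtain ⟨k2, hk2, ho2, hkB⟩ := hB2 y hy
    obtain ⟨t, htZ, htx⟩ := hBe _ hkB
    have ht0 : t = 0 := by
      refine hI2 t ⟨?_, htZ⟩ ?_
      · show cA k⁻¹ (phi e t) ∈ B
        rw [htx, cA_inv_cA]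
        exact hkB
      · intro i hi
        refine zero_of_block htZ ?_
        rw [htx]
        exact cA_zero_block k (cA_zero_block k2 (hy0 i hi))
    have h1 : cA k (cA k2 y) = 0 := by
      rw [← htx, ht0, map_zero]
    have h2 : cA k2 y = 0 := by
      rw [← cA_inv_cA k (cA k2 y), h1]
      exact map_zero (cAl k⁻¹)
    rw [← cA_inv_cA k2 y, h2]
    exact map_zero (cAl k2⁻¹)

end Pool.Agent.MP_417c68_gt
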