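import Mathlib
import Pool.Agent.Lib.MP_417c68_gt.Cocpt
import Pool.Agent.Lib.MP_417c68_gt.Split
import Pool.Agent.Lib.MP_417c68_gt.Prop
import Pool.Agent.Lib.MP_417c68_gt.Bij
import Pool.Agent.Lib.MP_417c68_gt.CritA
import Pool.Agent.Lib.MP_417c68_gt.CritB

/-!
# MP_417c68_gt: assembly

Text: `/team-store/TEXT_417c68.md`.
-/

noncomputable section

namespace Pool.Agent.MP_417c68_gt

open Matrix NormedSpace
open scoped Pointwise

variable {n : ℕ} {N : Fin n → ℕ} {G H L : Subgroup (Alg N)ˣ}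

private lemma cj_le (hHG : H ≤ G) {a : (Alg N)ˣ} (ha : a ∈ G) : cj a H ≤ G := by
  intro g hg
  have h1 := hHG (mem_cj.1 hg)
  have h2 := G.mul_mem (G.mul_mem ha h1) (G.inv_mem ha)
  have h3 : a * (a⁻¹ * g * a) * a⁻¹ = g := by group
  rwa [h3] at h2

/-- necessity: a proper cocompact action of a reductive subgroup gives the infinitesimal
criterion -/
theorem necessary (hG : SelfAdj G) (hR : RankOne G) (hH : Red G H) (hL : Red G L)
    (hP : ProperAct G H L) (hC : Cocompact G H L) : InfCrit G H := by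
  obtain ⟨hHG, a, ha, hHa⟩ := hH
  obtain ⟨hLG, b, hb, hLb⟩ := hL
  have hH' := cj_le hHG ha
  have hL' := cj_le hLG hb
  obtain ⟨C, hCc, -, hC⟩ := hC
  have hcompact : IsCompact ((fun c => b * c * a⁻¹) '' C) :=
    hCc.image (by fun_prop)
  obtain ⟨R, hRC⟩ := exists_KR hcompact
  have hc : ∀ g ∈ G, ∃ l ∈ cj b L, ∃ c ∈ KR N R, ∃ h ∈ cj a H, g = l * c * h := by
    intro g hg
    obtain ⟨l, hl, c, hc, h, hh, e⟩ := hC (b⁻¹ * g * a)
      (G.mul_mem (G.mul_mem (G.inv_mem hb) hg) ha)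
    refine ⟨b * l * b⁻¹, mem_cj.2 ?_, b * c * a⁻¹, hRC ⟨c, hc, rfl⟩, a * h * a⁻¹, mem_cj.2 ?_, ?_⟩
    · have h1 : b⁻¹ * (b * l * b⁻¹) * b = l := by group
      rwa [h1]
    · have h1 : a⁻¹ * (a * h * a⁻¹) * a = h := by group
      rwa [h1]
    · have h1 : g = b * (b⁻¹ * g * a) * a⁻¹ := by group
      rw [h1, e]
      group
  have hpc := proper_cond ha hb hP
  obtain ⟨I, hI1, hI2⟩ := split_I hG hR hHa hLb hH' hL' (fun k hk _ => hpc k hk)
  refine ⟨a, ha, hHa, I, hI1, ?_⟩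
  have hsum := sum_all hG hR hHa hLb hH' hL' R hc
  intro Z hZ
  obtain ⟨x, hx, hxI⟩ := bij (pS (cj a H)) (pS (cj b L)) (pS G)
    (fun x hx => (mem_pS hG.closed).2 (pp_mono hH' ((mem_pS hHa.closed).1 hx)))
    (fun x hx => (mem_pS hG.closed).2 (pp_mono hL' ((mem_pS hLb.closed).1 hx)))
    (fun z hz => by
      obtain ⟨x, hx, y, hy, e⟩ := hsum z ((mem_pS hG.closed).1 hz)
      exact ⟨x, (mem_pS hHa.closed).2 hx, y, (mem_pS hLb.closed).2 hy, e⟩)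
    (fun z hz i => (mem_pS hG.closed).2 (hR.split z ((mem_pS hG.closed).1 hz) i)) I
    (fun x hx => hI1 x ((mem_pS hHa.closed).1 hx)) (fun x hx => hI2 x ((mem_pS hLb.closed).1 hx))
    Z ((mem_pS hG.closed).2 hZ)
  exact ⟨x, (mem_pS hHa.closed).1 hx, hxI⟩

/-- a compact standard quotient gives a proper cocompact action of a reductive subgroup -/
theorem csq_proper (h : CSQ G H) : ∃ L, Red G L ∧ ProperAct G H L ∧ Cocompact G H L := by
  obtain ⟨L, Γ, hL, hP, hΓ, -, C, hC, hCG, hc⟩ := h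
  refine ⟨L, hL, hP, C, hC, hCG, fun g hg => ?_⟩
  obtain ⟨l, hl, r⟩ := hc g hg
  exact ⟨l, hΓ hl, r⟩

/-- sufficiency -/
theorem sufficient (hG : SelfAdj G) (hH : Red G H) (h : Crit G H) :
    ∃ I : Finset (Fin n), Red G (LI G I) ∧ ProperAct G H (LI G I) ∧ Cocompact G H (LI G I) := by
  obtain ⟨I, hk, hc⟩ := h
  have h1 : cj 1 (LI G I) = LI G I := by
    ext g
    rw [mem_cj]
    simp
  refine ⟨I, ⟨fun g hg => hg.1, 1, G.one_mem, ?_⟩, proper_LI hH hk, cocompact_LI hc hH.1⟩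
  rw [h1]
  exact selfAdj_LI hG I

/-- the whole classification -/
theorem classification (hG : SelfAdj G) (hR : RankOne G) (hH : Red G H) :
    (CSQ G H → Crit G H) ∧ (InfCrit G H ↔ Crit G H) ∧
    (Crit G H ↔ ∃ L, Red G L ∧ ProperAct G H L ∧ Cocompact G H L) ∧
    (Crit G H → ∃ I : Finset (Fin n),
      Red G (LI G I) ∧ ProperAct G H (LI G I) ∧ Cocompact G H (LI G I)) ∧
    ((∀ L, Red G L → ∃ Γ ≤ L, DTF Γ ∧ ∃ D : Set (Alg N)ˣ, IsCompact D ∧ D ⊆ L ∧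
      ∀ l ∈ L, ∃ γ ∈ Γ, ∃ d ∈ D, l = γ * d) → (CSQ G H ↔ Crit G H)) := by
  have h1 : (∃ L, Red G L ∧ ProperAct G H L ∧ Cocompact G H L) → InfCrit G H := by
    rintro ⟨L, hL, hP, hC⟩
    exact necessary hG hR hH hL hP hC
  have h2 : InfCrit G H → Crit G H := infCrit_crit hG
  have h3 := fun h => sufficient (G := G) (H := H) hG hH h
  have h4 : Crit G H → ∃ L, Red G L ∧ ProperAct G H L ∧ Cocompact G H L := by
    intro h
    obtain ⟨I, hI⟩ := h3 h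
    exact ⟨_, hI⟩
  refine ⟨fun h => h2 (h1 (csq_proper h)), ⟨h2, fun h => h1 (h4 h)⟩, ⟨h4, fun h => h2 (h1 h)⟩, h3,
    fun hB => ⟨fun h => h2 (h1 (csq_proper h)), fun h => ?_⟩⟩
  obtain ⟨I, hL, hP, C, hC, hCG, hc⟩ := h3 h
  obtain ⟨Γ, hΓ, hD, D, hDc, hDL, hd⟩ := hB _ hL
  refine ⟨LI G I, Γ, hL, hP, hΓ, hD, D * C, hDc.mul hC, ?_, fun g hg => ?_⟩
  · rintro _ ⟨d, hd', c, hc', rfl⟩
    exact G.mul_mem (hL.1 (hDL hd')) (hCG hc')
  · obtain ⟨l, hl, c, hc', h, hh, rfl⟩ := hc g hg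
    obtain ⟨γ, hγ, d, hd', rfl⟩ := hd l hl
    exact ⟨γ, hγ, d * c, ⟨d, hd', c, hc', rfl⟩, h, hh, by group⟩

end Pool.Agent.MP_417c68_gt
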